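import Mathlib
import Pool.Agent.Helper37EX.Main

/-!
# Hilbert cubes: the information about one index in a product, with a set of exceptional elements
-/

set_option autoImplicit false

namespace Pool.Agent.Helper37MX

open Finset Pool.Agent.Helper37HC Pool.Agent.Helper37EX Pool.Agent.Y359.PE

/-- the index can be recovered from the products of two elements up to few exceptional elements -/
def Rec2 {k : ℕ} (a₀ : ℤ) (u : Fin k → ℤ) (δ : ℝ) (i : Fin k) : Prop :=
  ∃ (D : Finset (Finset (Fin k))) (Amb : Finset (Finset (Fin k) × Finset (Fin k)))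
    (dec : ℤ → Prop → ℕ),
    (∀ s : Finset (Fin k) × Finset (Fin k), val a₀ u s.1 ≠ 0 → val a₀ u s.2 ≠ 0 →
      dec (val a₀ u s.1 * val a₀ u s.2) (s ∈ Amb) = wt i s) ∧
    (∀ s ∈ Amb, s.1 ∈ D ∨ s.2 ∈ D) ∧ (D.card : ℝ) ≤ δ * 2 ^ k

/-- different valuations, none of them high -/
lemma rec2_beta {k : ℕ} {a₀ : ℤ} {u : Fin k → ℤ} {δ : ℝ} (hδ : 0 ≤ δ) {i : Fin k} {p e : ℕ}
    (hp : p.Prime) (h : ∀ j, j ≠ i → ((p ^ e : ℕ) : ℤ) ∣ u j) (_hi : ¬ ((p ^ e : ℕ) : ℤ) ∣ u i)
    (h0 : ¬ ((p ^ e : ℕ) : ℤ) ∣ a₀) (h1 : ¬ ((p ^ e : ℕ) : ℤ) ∣ a₀ + u i)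
    (hne : fa a₀ p ≠ fa (a₀ + u i) p) : Rec2 a₀ u δ i := by
  classical
  refine ⟨∅, ∅, fun n _ => if fa n p = 2 * fa a₀ p then 0 else
    if fa n p = 2 * fa (a₀ + u i) p then 2 else 1, ?_, by simp, by simp; positivity⟩
  have key : ∀ S : Finset (Fin k), fa (val a₀ u S) p =
      if i ∈ S then fa (a₀ + u i) p else fa a₀ p := by
    intro S
    have h2 := val_sub a₀ u i S h
    by_cases hS : i ∈ S
    · rw [if_pos hS] at h2 ⊢
      refine fa_eq_of_congr hp h2 (fun h3 => h1 ?_) h1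
      have := dvd_sub h3 h2
      simpa using this
    · rw [if_neg hS, add_zero] at h2
      rw [if_neg hS]
      refine fa_eq_of_congr hp h2 (fun h3 => h0 ?_) h0
      have := dvd_sub h3 h2
      simpa using this
  intro s hs1 hs2
  dsimp only
  rw [Helper37EX.fa_mul hs1 hs2, key, key]
  unfold wt
  by_cases ha : i ∈ s.1 <;> by_cases hb : i ∈ s.2 <;> simp only [ha, hb, if_true, if_false]
  · rw [if_neg (by omega), if_pos (by omega)]
  · rw [if_neg (by omega), if_neg (by omega)]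
  · rw [if_neg (by omega), if_neg (by omega)]
  · rw [if_pos (by omega)]

/-- one high valuation -/
lemma rec2_alpha {k : ℕ} {a₀ : ℤ} {u : Fin k → ℤ} {δ : ℝ} {i : Fin k} {p e v : ℕ} {good : Prop}
    (hp : p.Prime) (h : ∀ j, j ≠ i → ((p ^ e : ℕ) : ℤ) ∣ u j) (_hi : ¬ ((p ^ e : ℕ) : ℤ) ∣ u i)
    (hgood : ∀ S : Finset (Fin k), (i ∈ S ↔ good) →
      ((p ^ e : ℕ) : ℤ) ∣ a₀ + if i ∈ S then u i else 0)
    (hbad : ∀ S : Finset (Fin k), ¬ (i ∈ S ↔ good) →
      ¬ ((p ^ e : ℕ) : ℤ) ∣ (a₀ + if i ∈ S then u i else 0) ∧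
      fa (a₀ + if i ∈ S then u i else 0) p = v)
    (hve : v < e)
    (hnoise : ∀ D : Finset (Finset (Fin k)), (∀ S ∈ D, (i ∈ S ↔ good) ∧
      ((p ^ (e + (e - v)) : ℕ) : ℤ) ∣ val a₀ u S) → (D.card : ℝ) ≤ δ * 2 ^ k) :
    Rec2 a₀ u δ i := by
  classical
  have kg : ∀ S : Finset (Fin k), val a₀ u S ≠ 0 → (i ∈ S ↔ good) → e ≤ fa (val a₀ u S) p := by
    intro S hS0 hS
    rw [← fa_dvd hp hS0]
    have h2 := val_sub a₀ u i S h
    have := dvd_add h2 (hgood S hS)
    simpa using this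
  have kb : ∀ S : Finset (Fin k), ¬ (i ∈ S ↔ good) → fa (val a₀ u S) p = v := by
    intro S hS
    have h2 := val_sub a₀ u i S h
    obtain ⟨h3, h4⟩ := hbad S hS
    rw [← h4]
    refine fa_eq_of_congr hp h2 (fun h5 => h3 ?_) h3
    have := dvd_sub h5 h2
    simpa using this
  obtain ⟨D, hD⟩ : ∃ D : Finset (Finset (Fin k)), D = univ.filter fun S => (i ∈ S ↔ good) ∧
      ((p ^ (e + (e - v)) : ℕ) : ℤ) ∣ val a₀ u S := ⟨_, rfl⟩
  have hDc := hnoise D fun S hS => by
    rw [hD, mem_filter] at hS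
    exact hS.2
  obtain ⟨Amb, hAmb⟩ : ∃ Amb : Finset (Finset (Fin k) × Finset (Fin k)),
      Amb = univ.filter fun s => val a₀ u s.1 ≠ 0 ∧ val a₀ u s.2 ≠ 0 ∧
        ¬ ((i ∈ s.1 ↔ good) ↔ (i ∈ s.2 ↔ good)) ∧
        2 * e ≤ fa (val a₀ u s.1 * val a₀ u s.2) p := ⟨_, rfl⟩
  refine ⟨D, Amb, fun n t => if t then 1 else if 2 * e ≤ fa n p then
    (if good then 2 else 0) else if fa n p = 2 * v then (if good then 0 else 2) else 1, ?_, ?_, hDc⟩
  · intro s hs1 hs2
    dsimp only
    rw [Helper37EX.fa_mul hs1 hs2]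
    have hiff : s ∈ Amb ↔ ¬ ((i ∈ s.1 ↔ good) ↔ (i ∈ s.2 ↔ good)) ∧
        2 * e ≤ fa (val a₀ u s.1) p + fa (val a₀ u s.2) p := by
      rw [hAmb, mem_filter, Helper37EX.fa_mul hs1 hs2]
      simp [hs1, hs2]
    by_cases g1 : (i ∈ s.1 ↔ good) <;> by_cases g2 : (i ∈ s.2 ↔ good)
    · have h3 : s ∉ Amb := fun h => (hiff.1 h).1 (iff_of_true g1 g2)
      have h4 := kg s.1 hs1 g1
      have h5 := kg s.2 hs2 g2
      rw [if_neg h3, if_pos (by omega)]
      unfold wt
      by_cases hg : good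
      · rw [if_pos hg, if_pos (g1.2 hg), if_pos (g2.2 hg)]
      · rw [if_neg hg, if_neg fun h => hg (g1.1 h), if_neg fun h => hg (g2.1 h)]
    · have h4 := kg s.1 hs1 g1
      have h5 := kb s.2 g2
      have hw : wt i s = 1 := by
        unfold wt
        by_cases hg : good
        · have h6 : i ∉ s.2 := fun h => g2 (iff_of_true h hg)
          rw [if_pos (g1.2 hg), if_neg h6]
        · have h6 : i ∈ s.2 := by
            by_contra h
            exact g2 (iff_of_false h hg)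
          rw [if_neg fun h => hg (g1.1 h), if_pos h6]
      by_cases h6 : 2 * e ≤ fa (val a₀ u s.1) p + fa (val a₀ u s.2) p
      · rw [if_pos (hiff.2 ⟨fun h => g2 (h.1 g1), h6⟩), hw]
      · rw [if_neg fun h => h6 (hiff.1 h).2, if_neg h6, if_neg (by omega), hw]
    · have h4 := kb s.1 g1
      have h5 := kg s.2 hs2 g2
      have hw : wt i s = 1 := by
        unfold wt
        by_cases hg : good
        · have h6 : i ∉ s.1 := fun h => g1 (iff_of_true h hg)
          rw [if_pos (g2.2 hg), if_neg h6]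
        · have h6 : i ∈ s.1 := by
            by_contra h
            exact g1 (iff_of_false h hg)
          rw [if_neg fun h => hg (g2.1 h), if_pos h6]
      by_cases h6 : 2 * e ≤ fa (val a₀ u s.1) p + fa (val a₀ u s.2) p
      · rw [if_pos (hiff.2 ⟨fun h => g1 (h.2 g2), h6⟩), hw]
      · rw [if_neg fun h => h6 (hiff.1 h).2, if_neg h6, if_neg (by omega), hw]
    · have h4 := kb s.1 g1
      have h5 := kb s.2 g2
      have h3 : s ∉ Amb := fun h => by
        have := (hiff.1 h).2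
        omega
      rw [if_neg h3, if_neg (by omega), if_pos (by omega)]
      unfold wt
      by_cases hg : good
      · have h6 : i ∉ s.1 := fun h => g1 (iff_of_true h hg)
        have h7 : i ∉ s.2 := fun h => g2 (iff_of_true h hg)
        rw [if_pos hg, if_neg h6, if_neg h7]
      · have h6 : i ∈ s.1 := by
          by_contra h
          exact g1 (iff_of_false h hg)
        have h7 : i ∈ s.2 := by
          by_contra h
          exact g2 (iff_of_false h hg)
        rw [if_neg hg, if_pos h6, if_pos h7]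
  · intro s hs
    rw [hAmb, mem_filter] at hs
    obtain ⟨-, hs1, hs2, hx, h6⟩ := hs
    rw [Helper37EX.fa_mul hs1 hs2] at h6
    rw [hD, mem_filter, mem_filter]
    by_cases g1 : (i ∈ s.1 ↔ good)
    · left
      have g2 : ¬ (i ∈ s.2 ↔ good) := fun g2 => hx (iff_of_true g1 g2)
      have h5 := kb s.2 g2
      refine ⟨mem_univ _, g1, ?_⟩
      rw [fa_dvd hp hs1]
      omega
    · right
      have g2 : (i ∈ s.2 ↔ good) := by
        by_contra g2
        exact hx (iff_of_false g1 g2)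
      have h5 := kb s.1 g1
      refine ⟨mem_univ _, g2, ?_⟩
      rw [fa_dvd hp hs2]
      omega

theorem rec2_of (δ : ℝ) (hδ : 0 < δ) : ∃ m M : ℕ, 1 ≤ M ∧ ∀ (k : ℕ) (a₀ : ℤ) (u : Fin k → ℤ),
    (∀ j, u j ≠ 0) →
    Set.ncard {i : Fin k | Exposed a₀ u M i ∧ ¬ Rec2 a₀ u δ i} ≤ m := by
  classical
  obtain ⟨m, M, -, hM, hno⟩ := noise δ hδ
  refine ⟨m, M, hM, ?_⟩
  intro k a₀ u hu
  have key : ∀ i : Fin k, ∃ p : ℕ, (Exposed a₀ u M i ∧ ¬ Rec2 a₀ u δ i) → p < m ∧ ∃ e : ℕ,
      (∀ j, j ≠ i → ((p ^ e : ℕ) : ℤ) ∣ u j) ∧ ¬ ((p ^ e : ℕ) : ℤ) ∣ u i := by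
    intro i
    by_cases hi : Exposed a₀ u M i ∧ ¬ Rec2 a₀ u δ i
    swap
    · exact ⟨0, fun h => absurd h hi⟩
    obtain ⟨⟨p, e, hp, h1, h2, h3⟩, hnR⟩ := hi
    have h1' : ∀ j, j ≠ i → ((p ^ e : ℕ) : ℤ) ∣ u j := fun j hj => by
      push_cast; exact h1 j hj
    have h2' : ¬ ((p ^ e : ℕ) : ℤ) ∣ u i := by push_cast; exact h2
    refine ⟨p, fun _ => ⟨?_, e, h1', h2'⟩⟩
    rcases h3 with ⟨h3, h4⟩ | ⟨h3, h4, h5⟩
    · have hv : fa (u i) p < e := by
        rw [fa_dvd hp (hu i), not_le] at h2'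
        exact h2'
      by_contra hcon
      apply hnR
      have hc : M ≤ (univ.filter fun j => j ≠ i ∧ ¬ ((p ^ (e + 1) : ℕ) : ℤ) ∣ u j).card := by
        have e1 : {j : Fin k | j ≠ i ∧ ¬ (p : ℤ) ^ (e + 1) ∣ u j} =
            ((univ.filter fun j => j ≠ i ∧ ¬ ((p ^ (e + 1) : ℕ) : ℤ) ∣ u j : Finset (Fin k)) :
              Set (Fin k)) := by
          ext j
          simp
        rwa [e1, Set.ncard_coe_finset] at h4
      have hg : ∀ S : Finset (Fin k), (i ∈ S ↔ ((p ^ e : ℕ) : ℤ) ∣ a₀ + u i) →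
          ((p ^ e : ℕ) : ℤ) ∣ a₀ + if i ∈ S then u i else 0 := by
        intro S hS
        by_cases hiS : i ∈ S
        · rw [if_pos hiS]; exact hS.1 hiS
        · rw [if_neg hiS, add_zero]
          rcases h3 with h3 | h3
          · push_cast; exact h3
          · exact absurd (hS.2 (by push_cast; exact h3)) hiS
      have hmp : m ≤ p ^ (e - fa (u i) p) := by
        refine (not_lt.1 hcon).trans ?_
        exact Nat.le_self_pow (by omega) p
      refine rec2_alpha (v := fa (u i) p) (good := ((p ^ e : ℕ) : ℤ) ∣ a₀ + u i) hp h1' h2' hg ?_ hv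
        fun D hD => ?_
      · intro S hS
        by_cases hiS : i ∈ S
        · have h5 : ¬ ((p ^ e : ℕ) : ℤ) ∣ a₀ + u i := fun h => hS (iff_of_true hiS h)
          rw [if_pos hiS]
          refine ⟨h5, fa_eq_of_congr hp ?_ h5 h2'⟩
          rw [add_sub_cancel_right]
          rcases h3 with h3 | h3
          · push_cast; exact h3
          · exact absurd (by push_cast; exact h3) h5
        · have h5 : ((p ^ e : ℕ) : ℤ) ∣ a₀ + u i := by
            by_contra h
            exact hS (iff_of_false hiS h)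
          have h6 : ¬ ((p ^ e : ℕ) : ℤ) ∣ a₀ := fun h => h2' (by simpa using dvd_sub h5 h)
          rw [if_neg hiS, add_zero]
          refine ⟨h6, ?_⟩
          rw [← fa_neg (u i) p]
          refine fa_eq_of_congr hp ?_ h6 (fun h => h2' ((dvd_neg).1 h))
          rw [sub_neg_eq_add]
          exact h5
      · exact hno k a₀ u i p e (e - fa (u i) p) _ hp hu h1' hg hc hmp D hD
    · exfalso
      apply hnR
      refine rec2_beta hδ.le hp h1' h2' (by push_cast; exact h3) (by push_cast; exact h4) ?_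
      rw [fa_eq_padic hp, fa_eq_padic hp]
      exact h5
  choose p hp using key
  have h1 : {i : Fin k | Exposed a₀ u M i ∧ ¬ Rec2 a₀ u δ i} =
      ((univ.filter fun i => Exposed a₀ u M i ∧ ¬ Rec2 a₀ u δ i : Finset (Fin k)) :
        Set (Fin k)) := by
    ext j
    simp
  rw [h1, Set.ncard_coe_finset]
  calc (univ.filter fun i => Exposed a₀ u M i ∧ ¬ Rec2 a₀ u δ i).card ≤ (range m).card := by
        refine card_le_card_of_injOn p ?_ ?_
        · intro i hi
          rw [mem_coe, mem_filter] at hi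
          exact mem_coe.2 (mem_range.2 (hp i hi.2).1)
        · intro i hi j hj hij
          rw [mem_coe, mem_filter] at hi hj
          obtain ⟨-, e, h3, h4⟩ := hp i hi.2
          obtain ⟨-, f, h5, h6⟩ := hp j hj.2
          by_contra hne
          rw [← hij] at h5 h6
          rcases le_total e f with hef | hef
          · apply h4
            exact (Int.natCast_dvd_natCast.2 (pow_dvd_pow _ hef)).trans (h5 i hne)
          · apply h6
            exact (Int.natCast_dvd_natCast.2 (pow_dvd_pow _ hef)).trans (h3 j (Ne.symm hne))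
    _ = m := card_range m

end Pool.Agent.Helper37MX
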