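import Mathlib
import Pool.Agent.Helper37MX.Rec2

/-!
# Hilbert cubes: counting pairs with a given product in a set of pairs with few partners
-/

set_option autoImplicit false

namespace Pool.Agent.Helper37MX

open Finset Pool.Agent.Helper37HC Pool.Agent.Helper37EX Pool.Agent.Y359.PE

lemma val_add_val {k : ℕ} (a₀ : ℤ) (u : Fin k → ℤ) (r : Finset (Fin k) × Finset (Fin k)) :
    val a₀ u r.1 + val a₀ u r.2 = 2 * a₀ + ∑ i, (wt i r : ℤ) * u i := by
  classical
  unfold Helper37EX.val wt
  have g1 : ∀ S : Finset (Fin k), ∑ i ∈ S, u i = ∑ i, (if i ∈ S then (1 : ℤ) else 0) * u i := by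
    intro S
    simp only [ite_mul, one_mul, zero_mul]
    rw [Finset.sum_ite_mem, univ_inter]
  rw [g1, g1]
  have g2 : ∑ i, (((if i ∈ r.1 then 1 else 0) + (if i ∈ r.2 then 1 else 0) : ℕ) : ℤ) * u i =
      ∑ i, (if i ∈ r.1 then (1 : ℤ) else 0) * u i +
      ∑ i, (if i ∈ r.2 then (1 : ℤ) else 0) * u i := by
    rw [← Finset.sum_add_distrib]
    refine Finset.sum_congr rfl fun i _ => ?_
    push_cast
    ring
  rw [g2]
  ring

/-- a pair of integers is determined by its sum, its product and its order -/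
lemma pair_eq {a b c d : ℤ} (h1 : a + b = c + d) (h2 : a * b = c * d)
    (h3 : decide (a ≤ b) = decide (c ≤ d)) : a = c ∧ b = d := by
  have hfac : (a - c) * (a - d) = 0 := by
    have : (a - c) * (a - d) = a ^ 2 - a * (c + d) + c * d := by ring
    rw [this, ← h1, ← h2]
    ring
  rcases mul_eq_zero.1 hfac with h | h
  · have h4 : a = c := by linarith
    exact ⟨h4, by linarith⟩
  · have h4 : a = d := by linarith
    have h5 : b = c := by linarith
    rw [decide_eq_decide, h4, h5] at h3
    have h6 : c = d := by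
      rcases le_total c d with h7 | h7
      · exact le_antisymm h7 (h3.2 h7)
      · exact le_antisymm (h3.1 h7) h7
    exact ⟨by rw [h4, h6], by rw [h5, h6]⟩

theorem count2 {k : ℕ} (a₀ : ℤ) (u : Fin k → ℤ) (δ τ F : ℝ) (hδ : 0 ≤ δ) (hτ : 0 ≤ τ)
    (hinj : Function.Injective (val a₀ u)) (I N : Finset (Fin k))
    (hF : ((univ.filter fun T : Finset (Fin k) => (T.card : ℝ) ≤ τ * k).card : ℝ) ≤ F)
    (hN : ∀ i, i ∉ I → i ∉ N → Rec2 a₀ u δ i)
    (P : Finset (Finset (Fin k) × Finset (Fin k))) (m : ℕ)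
    (hPI : ∀ s ∈ P, ∀ i ∈ I, wt i s = 1)
    (h1 : ∀ S, (P.filter fun s => s.1 = S).card ≤ m)
    (h2 : ∀ S, (P.filter fun s => s.2 = S).card ≤ m) :
    (P.card : ℝ) * (τ * k) ≤ k * (2 * m * (δ * 2 ^ k)) + 2 * m * (τ * k) +
      ((P.image fun s => val a₀ u s.1 * val a₀ u s.2).card : ℝ) * F * 4 ^ N.card * 2 *
        (τ * k) := by
  classical
  have hN' : ∀ i, ∃ (D : Finset (Finset (Fin k)))
      (Amb : Finset (Finset (Fin k) × Finset (Fin k))) (dec : ℤ → Prop → ℕ),
      (i ∉ I → i ∉ N →
        ((∀ s : Finset (Fin k) × Finset (Fin k), val a₀ u s.1 ≠ 0 → val a₀ u s.2 ≠ 0 →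
          dec (val a₀ u s.1 * val a₀ u s.2) (s ∈ Amb) = wt i s))) ∧
        (∀ s ∈ Amb, s.1 ∈ D ∨ s.2 ∈ D) ∧ (i ∉ I → i ∉ N → (D.card : ℝ) ≤ δ * 2 ^ k) ∧
        ((i ∈ I ∨ i ∈ N) → D = ∅) := by
    intro i
    by_cases hi : i ∈ I ∨ i ∈ N
    · exact ⟨∅, ∅, fun _ _ => 0, fun h h' => absurd hi (not_or.2 ⟨h, h'⟩), by simp,
        fun h h' => absurd hi (not_or.2 ⟨h, h'⟩), fun _ => rfl⟩
    · obtain ⟨D, Amb, dec, g1, g2, g3⟩ := hN i (not_or.1 hi).1 (not_or.1 hi).2
      exact ⟨D, Amb, dec, fun _ _ => g1, g2, fun _ _ => g3, fun h => absurd h hi⟩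
  choose D Amb dec hdec hAmb hD hD0 using hN'
  obtain ⟨T, hT⟩ : ∃ T : Finset (Fin k) × Finset (Fin k) → Finset (Fin k),
      T = fun s => univ.filter fun i => s ∈ Amb i := ⟨_, rfl⟩
  obtain ⟨Q, hQ⟩ : ∃ Q : Finset (Finset (Fin k) × Finset (Fin k)),
      Q = P.filter fun s => val a₀ u s.1 ≠ 0 ∧ val a₀ u s.2 ≠ 0 ∧ ((T s).card : ℝ) ≤ τ * k :=
    ⟨_, rfl⟩
  -- the pairs with value zero
  have hz1 : (P.filter fun s => val a₀ u s.1 = 0).card ≤ m := by
    by_cases hex : ∃ S, val a₀ u S = 0
    · obtain ⟨S, hS⟩ := hex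
      refine le_trans (card_le_card ?_) (h1 S)
      intro s hs
      rw [mem_filter] at hs ⊢
      exact ⟨hs.1, hinj (hs.2.trans hS.symm)⟩
    · have : (P.filter fun s => val a₀ u s.1 = 0) = ∅ := by
        rw [filter_eq_empty_iff]
        exact fun s _ h => hex ⟨_, h⟩
      rw [this, card_empty]
      exact Nat.zero_le _
  have hz2 : (P.filter fun s => val a₀ u s.2 = 0).card ≤ m := by
    by_cases hex : ∃ S, val a₀ u S = 0
    · obtain ⟨S, hS⟩ := hex
      refine le_trans (card_le_card ?_) (h2 S)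
      intro s hs
      rw [mem_filter] at hs ⊢
      exact ⟨hs.1, hinj (hs.2.trans hS.symm)⟩
    · have : (P.filter fun s => val a₀ u s.2 = 0) = ∅ := by
        rw [filter_eq_empty_iff]
        exact fun s _ h => hex ⟨_, h⟩
      rw [this, card_empty]
      exact Nat.zero_le _
  -- the exceptional pairs
  have hex : (P.card : ℝ) ≤ Q.card + 2 * m +
      ((P.filter fun s => τ * k < ((T s).card : ℝ)).card : ℝ) := by
    have g1 : P ⊆ Q ∪ ((P.filter fun s => val a₀ u s.1 = 0) ∪
        (P.filter fun s => val a₀ u s.2 = 0)) ∪ P.filter fun s => τ * k < ((T s).card : ℝ) := by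
      intro s hs
      rw [mem_union, mem_union, mem_union, hQ]
      simp only [mem_filter, hs, true_and]
      by_cases g2 : val a₀ u s.1 = 0
      · exact Or.inl (Or.inr (Or.inl g2))
      by_cases g3 : val a₀ u s.2 = 0
      · exact Or.inl (Or.inr (Or.inr g3))
      rcases le_or_gt ((T s).card : ℝ) (τ * k) with g4 | g4
      · exact Or.inl (Or.inl ⟨g2, g3, g4⟩)
      · exact Or.inr g4
    have g2 := (card_le_card g1).trans ((card_union_le _ _).trans (Nat.add_le_add_right
      ((card_union_le _ _).trans (Nat.add_le_add_left (card_union_le _ _) _)) _))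
    have g3 : P.card ≤ Q.card + (m + m) + (P.filter fun s => τ * k < ((T s).card : ℝ)).card := by
      omega
    have g4 : (P.card : ℝ) ≤ Q.card + (m + m) +
        ((P.filter fun s => τ * k < ((T s).card : ℝ)).card : ℝ) := by exact_mod_cast g3
    linarith
  -- many ambiguous indices are rare
  have hPA : ∀ i, ((P.filter fun s => s ∈ Amb i).card : ℝ) ≤ 2 * m * (D i).card := by
    intro i
    have g1 : (P.filter fun s => s ∈ Amb i) ⊆ (D i).biUnion fun S =>
        (P.filter fun s => s.1 = S) ∪ (P.filter fun s => s.2 = S) := by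
      intro s hs
      rw [mem_filter] at hs
      rw [mem_biUnion]
      rcases hAmb i s hs.2 with g | g
      · exact ⟨s.1, g, mem_union_left _ (mem_filter.2 ⟨hs.1, rfl⟩)⟩
      · exact ⟨s.2, g, mem_union_right _ (mem_filter.2 ⟨hs.1, rfl⟩)⟩
    have g2 : (P.filter fun s => s ∈ Amb i).card ≤ (D i).card * (2 * m) := by
      refine (card_le_card g1).trans (card_biUnion_le_card_mul _ _ _ fun S _ => ?_)
      refine (card_union_le _ _).trans ?_
      have := h1 S
      have := h2 S
      omega
    have g3 : ((P.filter fun s => s ∈ Amb i).card : ℝ) ≤ (D i).card * (2 * m) := by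
      exact_mod_cast g2
    linarith
  have hmk : ((P.filter fun s => τ * k < ((T s).card : ℝ)).card : ℝ) * (τ * k) ≤
      k * (2 * m * (δ * 2 ^ k)) := by
    have g1 : ((P.filter fun s => τ * k < ((T s).card : ℝ)).card : ℝ) * (τ * k) ≤
        ∑ s ∈ P, ((T s).card : ℝ) := by
      rw [← nsmul_eq_mul]
      refine (Finset.card_nsmul_le_sum _ (fun s => ((T s).card : ℝ)) _ fun s hs => ?_).trans
        (Finset.sum_le_sum_of_subset_of_nonneg (filter_subset _ _) fun s _ _ => Nat.cast_nonneg _)
      exact (mem_filter.1 hs).2.le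
    have g2 : ∑ s ∈ P, ((T s).card : ℝ) = ∑ i, ((P.filter fun s => s ∈ Amb i).card : ℝ) := by
      rw [hT]
      simp only [Finset.card_filter]
      push_cast
      rw [Finset.sum_comm]
    rw [g2] at g1
    refine g1.trans ?_
    have g3 : ∀ i ∈ (univ : Finset (Fin k)), ((P.filter fun s => s ∈ Amb i).card : ℝ) ≤
        2 * m * (δ * 2 ^ k) ∨ (P.filter fun s => s ∈ Amb i).card = 0 := by
      intro i _
      by_cases hi : i ∈ I ∨ i ∈ N
      · right
        have := hPA i
        rw [hD0 i hi, card_empty, Nat.cast_zero, mul_zero] at this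
        have h0 : (0 : ℝ) ≤ ((P.filter fun s => s ∈ Amb i).card : ℝ) := Nat.cast_nonneg _
        have h0' : ((P.filter fun s => s ∈ Amb i).card : ℝ) = 0 := le_antisymm this h0
        exact_mod_cast h0'
      · left
        refine (hPA i).trans ?_
        exact mul_le_mul_of_nonneg_left (hD i (not_or.1 hi).1 (not_or.1 hi).2) (by positivity)
    calc ∑ i, ((P.filter fun s => s ∈ Amb i).card : ℝ) ≤
        ∑ _i : Fin k, 2 * m * (δ * 2 ^ k) := by
          refine Finset.sum_le_sum fun i hi => ?_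
          rcases g3 i hi with g | g
          · exact g
          · rw [g, Nat.cast_zero]; positivity
      _ = k * (2 * m * (δ * 2 ^ k)) := by
          rw [Finset.sum_const, nsmul_eq_mul, card_univ, Fintype.card_fin]
  -- the other pairs
  have hQc : (Q.card : ℝ) ≤ ((P.image fun s => val a₀ u s.1 * val a₀ u s.2).card : ℝ) * F *
      4 ^ N.card * 2 := by
    have g1 : Q.card ≤ ((P.image fun s => val a₀ u s.1 * val a₀ u s.2) ×ˢ
        (univ.filter fun T : Finset (Fin k) => (T.card : ℝ) ≤ τ * k) ×ˢ N.powerset ×ˢ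
        N.powerset ×ˢ (univ : Finset Bool)).card := by
      refine card_le_card_of_injOn (fun s => (val a₀ u s.1 * val a₀ u s.2, T s, s.1 ∩ N, s.2 ∩ N,
        decide (val a₀ u s.1 ≤ val a₀ u s.2))) ?_ ?_
      · intro s hs
        rw [mem_coe, hQ, mem_filter] at hs
        rw [mem_coe, mem_product, mem_product, mem_product, mem_product]
        refine ⟨mem_image_of_mem _ hs.1, mem_filter.2 ⟨mem_univ _, hs.2.2.2⟩,
          mem_powerset.2 inter_subset_right, mem_powerset.2 inter_subset_right, mem_univ _⟩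
      · intro s hs t ht hst
        rw [mem_coe, hQ, mem_filter] at hs ht
        obtain ⟨hsP, hs1, hs2, -⟩ := hs
        obtain ⟨htP, ht1, ht2, -⟩ := ht
        rw [Prod.mk.injEq, Prod.mk.injEq, Prod.mk.injEq, Prod.mk.injEq] at hst
        obtain ⟨e1, e2, e3, e4, e5⟩ := hst
        have hw : ∀ i, wt i s = wt i t := by
          intro i
          by_cases hiI : i ∈ I
          · rw [hPI s hsP i hiI, hPI t htP i hiI]
          by_cases hi : i ∈ N
          · have f1 := Finset.ext_iff.1 e3 i
            have f2 := Finset.ext_iff.1 e4 i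
            simp only [mem_inter, hi, and_true] at f1 f2
            unfold wt
            simp only [f1, f2]
          · rw [← hdec i hiI hi s hs1 hs2, ← hdec i hiI hi t ht1 ht2, e1]
            have f1 := Finset.ext_iff.1 e2 i
            rw [hT] at f1
            simp only [mem_filter, mem_univ, true_and] at f1
            rw [f1]
        have hs3 : val a₀ u s.1 + val a₀ u s.2 = val a₀ u t.1 + val a₀ u t.2 := by
          rw [val_add_val, val_add_val]
          simp only [hw]
        obtain ⟨g3, g4⟩ := pair_eq hs3 e1 e5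
        exact Prod.ext (hinj g3) (hinj g4)
    rw [card_product, card_product, card_product, card_product, card_powerset, card_univ,
      Fintype.card_bool] at g1
    have g2 : (Q.card : ℝ) ≤ ((P.image fun s => val a₀ u s.1 * val a₀ u s.2).card : ℝ) *
        (((univ.filter fun T : Finset (Fin k) => (T.card : ℝ) ≤ τ * k).card : ℝ) *
          (2 ^ N.card * (2 ^ N.card * 2))) := by exact_mod_cast g1
    refine g2.trans ?_
    have g3 : (4 : ℝ) ^ N.card = 2 ^ N.card * 2 ^ N.card := by rw [← mul_pow]; norm_num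
    rw [g3]
    calc ((P.image fun s => val a₀ u s.1 * val a₀ u s.2).card : ℝ) *
        (((univ.filter fun T : Finset (Fin k) => (T.card : ℝ) ≤ τ * k).card : ℝ) *
          (2 ^ N.card * (2 ^ N.card * 2))) ≤
        ((P.image fun s => val a₀ u s.1 * val a₀ u s.2).card : ℝ) *
        (F * (2 ^ N.card * (2 ^ N.card * 2))) := by gcongr
      _ = _ := by ring
  have hτk : 0 ≤ τ * k := by positivity
  calc (P.card : ℝ) * (τ * k) ≤ (Q.card + 2 * m +
      ((P.filter fun s => τ * k < ((T s).card : ℝ)).card : ℝ)) * (τ * k) :=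
        mul_le_mul_of_nonneg_right hex hτk
    _ ≤ _ := by
      have := mul_le_mul_of_nonneg_right hQc hτk
      linarith

end Pool.Agent.Helper37MX
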