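import Mathlib
import Pool.Agent.Helper37MX.Count2

/-!
# Hilbert cubes with some private primes: the bound from sums
-/

set_option autoImplicit false

namespace Pool.Agent.Helper37MX

open Finset Pool.Agent.Helper37HC Pool.Agent.Helper37EX Pool.Agent.Y359.PE

lemma params (ρ : ℝ) (hρ : 0 < ρ) : ∃ τ : ℝ, 0 < τ ∧ ∀ k : ℕ,
    ((univ.filter fun T : Finset (Fin k) => (T.card : ℝ) ≤ τ * k).card : ℝ) ≤
      Real.exp (ρ * k) := by
  obtain ⟨lam, hlam⟩ : ∃ lam : ℝ, lam = min 1 (ρ / 2) := ⟨_, rfl⟩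
  have hlam0 : 0 < lam := by rw [hlam]; positivity
  have hlam1 : lam ≤ 1 := by rw [hlam]; exact min_le_left _ _
  have hlam2 : lam ≤ ρ / 2 := by rw [hlam]; exact min_le_right _ _
  have hll : 0 ≤ Real.log (1 / lam) := Real.log_nonneg (by rw [le_div_iff₀ hlam0]; linarith)
  obtain ⟨τ, hτ⟩ : ∃ τ : ℝ, τ = ρ / 2 / (Real.log (1 / lam) + 1) := ⟨_, rfl⟩
  have hτ0 : 0 < τ := by rw [hτ]; positivity
  have hτ1 : τ * Real.log (1 / lam) ≤ ρ / 2 := by
    rw [hτ, div_mul_eq_mul_div, div_le_iff₀ (by linarith)]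
    nlinarith
  refine ⟨τ, hτ0, fun k => (few_sets k τ lam hlam0 hlam1).trans ?_⟩
  apply Real.exp_le_exp.2
  have h1 : (0 : ℝ) ≤ k := Nat.cast_nonneg _
  nlinarith

lemma ne_zero_of_inj {k : ℕ} {a₀ : ℤ} {u : Fin k → ℤ} (h : Function.Injective (val a₀ u))
    (j : Fin k) : u j ≠ 0 := by
  intro h0
  have h1 : val a₀ u {j} = val a₀ u ∅ := by
    unfold Helper37EX.val
    simp [h0]
  have h2 := h h1
  simp at h2

open Classical in
/-- pairs of sets which complement each other on `I` -/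
noncomputable def PI {k : ℕ} (I : Finset (Fin k)) : Finset (Finset (Fin k) × Finset (Fin k)) :=
  univ.filter fun s => ∀ i ∈ I, (i ∈ s.1 ↔ i ∉ s.2)

lemma PI_wt {k : ℕ} {I : Finset (Fin k)} {s : Finset (Fin k) × Finset (Fin k)} (hs : s ∈ PI I)
    {i : Fin k} (hi : i ∈ I) : wt i s = 1 := by
  classical
  unfold PI at hs
  rw [mem_filter] at hs
  have h := hs.2 i hi
  unfold wt
  by_cases h1 : i ∈ s.1
  · rw [if_pos h1, if_neg (h.1 h1)]
  · rw [if_neg h1, if_pos (by
      by_contra h2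
      exact h1 (h.2 h2))]

lemma PI_row {k : ℕ} (I S : Finset (Fin k)) :
    ((PI I).filter fun s => s.1 = S).card ≤ 2 ^ (univ \ I).card := by
  classical
  rw [← card_powerset]
  refine card_le_card_of_injOn (fun s => s.2 \ I) ?_ ?_
  · intro s _
    rw [mem_coe, mem_powerset]
    exact sdiff_subset_sdiff (subset_univ _) le_rfl
  · intro s hs t ht hst
    rw [mem_coe, mem_filter] at hs ht
    unfold PI at hs ht
    simp only [mem_filter, mem_univ, true_and] at hs ht
    obtain ⟨hs1, rfl⟩ := hs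
    obtain ⟨ht1, ht2⟩ := ht
    refine Prod.ext ht2.symm ?_
    ext i
    by_cases hi : i ∈ I
    · have h1 := hs1 i hi
      have h2 := ht1 i hi
      rw [ht2] at h2
      tauto
    · have h3 := Finset.ext_iff.1 hst i
      simpa [hi] using h3

lemma PI_col {k : ℕ} (I S : Finset (Fin k)) :
    ((PI I).filter fun s => s.2 = S).card ≤ 2 ^ (univ \ I).card := by
  classical
  rw [← card_powerset]
  refine card_le_card_of_injOn (fun s => s.1 \ I) ?_ ?_
  · intro s _
    rw [mem_coe, mem_powerset]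
    exact sdiff_subset_sdiff (subset_univ _) le_rfl
  · intro s hs t ht hst
    rw [mem_coe, mem_filter] at hs ht
    unfold PI at hs ht
    simp only [mem_filter, mem_univ, true_and] at hs ht
    obtain ⟨hs1, rfl⟩ := hs
    obtain ⟨ht1, ht2⟩ := ht
    refine Prod.ext ?_ ht2.symm
    ext i
    by_cases hi : i ∈ I
    · have h1 := hs1 i hi
      have h2 := ht1 i hi
      rw [ht2] at h2
      tauto
    · have h3 := Finset.ext_iff.1 hst i
      simpa [hi] using h3

lemma PI_card {k : ℕ} (I : Finset (Fin k)) : 2 ^ k * 2 ^ (univ \ I).card ≤ (PI I).card := by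
  classical
  have h1 : 2 ^ k * 2 ^ (univ \ I).card =
      ((univ : Finset (Finset (Fin k))) ×ˢ (univ \ I).powerset).card := by
    rw [card_product, card_powerset, card_univ, Fintype.card_finset, Fintype.card_fin]
  rw [h1]
  refine card_le_card_of_injOn (fun s => (s.1, (I \ s.1) ∪ s.2)) ?_ ?_
  · intro s hs
    rw [mem_coe, mem_product, mem_powerset] at hs
    unfold PI
    rw [mem_coe, mem_filter]
    refine ⟨mem_univ _, fun i hi => ?_⟩
    have h2 : i ∉ s.2 := fun h => (mem_sdiff.1 (hs.2 h)).2 hi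
    simp only [mem_union, mem_sdiff, hi, h2, true_and, or_false, not_not]
  · intro s hs t ht hst
    rw [mem_coe, mem_product, mem_powerset] at hs ht
    rw [Prod.mk.injEq] at hst
    obtain ⟨h2, h3⟩ := hst
    refine Prod.ext h2 ?_
    ext i
    by_cases hi : i ∈ I
    · have h4 : i ∉ s.2 := fun h => (mem_sdiff.1 (hs.2 h)).2 hi
      have h5 : i ∉ t.2 := fun h => (mem_sdiff.1 (ht.2 h)).2 hi
      exact iff_of_false h4 h5
    · have h4 := Finset.ext_iff.1 h3 i
      simpa [hi] using h4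

/-- all products of two elements -/
def prods {k : ℕ} (a₀ : ℤ) (u : Fin k → ℤ) : Finset ℤ :=
  (univ : Finset (Finset (Fin k) × Finset (Fin k))).image fun s => val a₀ u s.1 * val a₀ u s.2

lemma prods_pos {k : ℕ} (a₀ : ℤ) (u : Fin k → ℤ) : (1 : ℝ) ≤ (prods a₀ u).card := by
  have : 0 < (prods a₀ u).card := card_pos.2 (univ_nonempty.image _)
  exact_mod_cast this

theorem t2 (ε : ℝ) (hε : 0 < ε) : ∃ (M : ℕ) (c : ℝ), 0 < c ∧
    ∀ (k : ℕ) (a₀ : ℤ) (u : Fin k → ℤ), Function.Injective (val a₀ u) →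
      ∀ I : Finset (Fin k), (∀ i, i ∉ I → Exposed a₀ u M i) →
      c * (2 : ℝ) ^ ((2 - ε) * k - I.card) ≤ (prods a₀ u).card := by
  classical
  have hl2 : 0 < Real.log 2 := Real.log_pos (by norm_num)
  obtain ⟨τ, hτ0, hfew⟩ := params (ε * Real.log 2) (by positivity)
  obtain ⟨m, M, -, hrec⟩ := rec2_of (τ / 8) (by positivity)
  refine ⟨M, 1 / (64 * 4 ^ m), by positivity, ?_⟩
  intro k a₀ u hinj I hI
  have hu : ∀ j, u j ≠ 0 := ne_zero_of_inj hinj
  have hJ : 1 ≤ (prods a₀ u).card := by exact_mod_cast prods_pos a₀ u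
  obtain ⟨J, hJd⟩ : ∃ J : ℝ, J = ((prods a₀ u).card : ℝ) := ⟨_, rfl⟩
  have hJ1 : 1 ≤ J := by rw [hJd]; exact prods_pos a₀ u
  rw [← hJd]
  have h4m : (1 : ℝ) ≤ 4 ^ m := one_le_pow₀ (by norm_num)
  rcases lt_or_ge k 3 with hk | hk
  · refine le_trans ?_ hJ1
    rw [div_mul_eq_mul_div, one_mul, div_le_one (by positivity)]
    have h1 : (2 : ℝ) ^ ((2 - ε) * k - I.card) ≤ 2 ^ (6 : ℝ) := by
      refine Real.rpow_le_rpow_of_exponent_le (by norm_num) ?_
      have h2 : (k : ℝ) ≤ 3 := by exact_mod_cast hk.le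
      have h3 : (0 : ℝ) ≤ k := Nat.cast_nonneg _
      have h4 : (0 : ℝ) ≤ I.card := Nat.cast_nonneg _
      nlinarith
    have h2 : (2 : ℝ) ^ (6 : ℝ) = 64 := by
      rw [show (6 : ℝ) = ((6 : ℕ) : ℝ) by norm_num, Real.rpow_natCast]; norm_num
    rw [h2] at h1
    nlinarith
  · have hkr : (3 : ℝ) ≤ k := by exact_mod_cast hk
    obtain ⟨N, hNd⟩ : ∃ N : Finset (Fin k), N = univ.filter fun i => Exposed a₀ u M i ∧
        ¬ Rec2 a₀ u (τ / 8) i := ⟨_, rfl⟩
    have hNc : N.card ≤ m := by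
      have h3 := hrec k a₀ u hu
      have e1 : {i : Fin k | Exposed a₀ u M i ∧ ¬ Rec2 a₀ u (τ / 8) i} =
          ((univ.filter fun i => Exposed a₀ u M i ∧ ¬ Rec2 a₀ u (τ / 8) i : Finset (Fin k)) :
            Set (Fin k)) := by ext j; simp
      rw [e1, Set.ncard_coe_finset, ← hNd] at h3
      exact h3
    obtain ⟨r, hr⟩ : ∃ r : ℕ, r = 2 ^ (univ \ I).card := ⟨_, rfl⟩
    have hr0 : (0 : ℝ) < r := by rw [hr]; positivity
    have hcnt := count2 a₀ u (τ / 8) τ (Real.exp (ε * Real.log 2 * k)) (by positivity) hτ0.le hinj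
      I N (hfew k) (fun i hi hiN => by
        by_contra h
        exact hiN (by rw [hNd]; exact mem_filter.2 ⟨mem_univ _, hI i hi, h⟩)) (PI I) r
      (fun s hs i hi => PI_wt hs hi) (fun S => hr ▸ PI_row I S) (fun S => hr ▸ PI_col I S)
    have hcard : (2 : ℝ) ^ k * r ≤ (PI I).card := by
      have := PI_card I
      rw [← hr] at this
      exact_mod_cast this
    have himg : (((PI I).image fun s => val a₀ u s.1 * val a₀ u s.2).card : ℝ) ≤ J := by
      rw [hJd]
      exact_mod_cast card_le_card (image_subset_image (subset_univ _))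
    have hτk : 0 < τ * k := by positivity
    have hE0 : 0 < Real.exp (ε * Real.log 2 * k) := Real.exp_pos _
    have h1 : ((2 : ℝ) ^ k * r) * (τ * k) ≤
        (1 / 4 * (2 ^ k * r) + 2 * r + J * Real.exp (ε * Real.log 2 * k) * 4 ^ m * 2) *
          (τ * k) := by
      have g1 : (((PI I).image fun s => val a₀ u s.1 * val a₀ u s.2).card : ℝ) *
          Real.exp (ε * Real.log 2 * k) * 4 ^ N.card * 2 * (τ * k) ≤
          J * Real.exp (ε * Real.log 2 * k) * 4 ^ m * 2 * (τ * k) := by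
        have g2 : (4 : ℝ) ^ N.card ≤ 4 ^ m := pow_le_pow_right₀ (by norm_num) hNc
        gcongr
      have g2 := mul_le_mul_of_nonneg_right hcard hτk.le
      have g3 : (k : ℝ) * (2 * r * (τ / 8 * 2 ^ k)) = 1 / 4 * (2 ^ k * r) * (τ * k) := by ring
      rw [g3] at hcnt
      linarith
    have h2 := le_of_mul_le_mul_right h1 hτk
    have h3 : (8 : ℝ) ≤ 2 ^ k := by
      calc (8 : ℝ) = 2 ^ 3 := by norm_num
        _ ≤ 2 ^ k := pow_le_pow_right₀ (by norm_num) hk
    have h4 : 2 * (r : ℝ) ≤ 1 / 4 * (2 ^ k * r) := by nlinarith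
    have h5 : 1 / 2 * ((2 : ℝ) ^ k * r) ≤ J * Real.exp (ε * Real.log 2 * k) * 4 ^ m * 2 := by
      linarith
    have h6 : (2 : ℝ) ^ ((2 - ε) * k - I.card) * Real.exp (ε * Real.log 2 * k) =
        2 ^ k * r := by
      have e1 : Real.exp (ε * Real.log 2 * k) = (2 : ℝ) ^ (ε * k) := by
        rw [Real.rpow_def_of_pos (by norm_num)]
        congr 1
        ring
      have e2 : (r : ℝ) = (2 : ℝ) ^ ((k : ℝ) - I.card) := by
        rw [hr]
        push_cast
        rw [← Real.rpow_natCast]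
        congr 1
        rw [card_sdiff_of_subset (subset_univ _), card_univ, Fintype.card_fin, Nat.cast_sub]
        have := card_le_univ I
        rwa [Fintype.card_fin] at this
      rw [e1, e2, ← Real.rpow_natCast (2 : ℝ) k, ← Real.rpow_add (by norm_num),
        ← Real.rpow_add (by norm_num)]
      congr 1
      ring
    rw [← h6] at h5
    have h7 : (1 / 2 * (2 : ℝ) ^ ((2 - ε) * k - I.card)) * Real.exp (ε * Real.log 2 * k) ≤
        (J * 4 ^ m * 2) * Real.exp (ε * Real.log 2 * k) := by linarith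
    have h8 := le_of_mul_le_mul_right h7 hE0
    rw [div_mul_eq_mul_div, one_mul, div_le_iff₀ (by positivity)]
    have h9 : (0 : ℝ) ≤ J * 4 ^ m := by positivity
    linarith

end Pool.Agent.Helper37MX
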