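import Mathlib
import Pool.Agent.Helper37MX.Sum

/-!
# Large parts of Hilbert cubes without popular prime powers have large product sets
-/

set_option autoImplicit false

namespace Pool.Agent.Helper37MX

open Finset Pool.Agent.Helper37HC Pool.Agent.Helper37EX Pool.Agent.Y359.PE Pool.Agent.R849.SV
  Pool.Agent.R849.RF

/-- every prime power divides all the `u i`, `i ∈ I`, or fails to divide at least `M` of them -/
def Clean {k : ℕ} (u : Fin k → ℤ) (M : ℕ) (I : Finset (Fin k)) : Prop :=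
  ∀ p e : ℕ, p.Prime → (∃ i ∈ I, ¬ ((p ^ e : ℕ) : ℤ) ∣ u i) →
    M ≤ (I.filter fun i => ¬ ((p ^ e : ℕ) : ℤ) ∣ u i).card

lemma Dv_pair {n : ℕ} {g w : ℤ} : Dv n {g, g + w} ↔ (n : ℤ) ∣ w := by
  constructor
  · intro h
    have := h (g + w) (by simp) g (by simp)
    simpa using this
  · intro h x hx y hy
    rw [mem_insert, mem_singleton] at hx hy
    rcases hx with rfl | rfl <;> rcases hy with rfl | rfl
    · simp
    · simpa using h
    · simpa using h
    · simp

lemma Dv_pair0 {n : ℕ} {w : ℤ} : Dv n {0, w} ↔ (n : ℤ) ∣ w := by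
  have := Dv_pair (n := n) (g := 0) (w := w)
  rwa [zero_add] at this

theorem done_sub (ε : ℝ) (hε : 0 < ε) (hε1 : ε ≤ 1) : ∃ (M : ℕ) (c : ℝ), 1 ≤ M ∧ 0 < c ∧
    ∀ (k : ℕ) (g : ℤ) (u : Fin k → ℤ) (I : Finset (Fin k)), I.Nonempty → (∀ i ∈ I, u i ≠ 0) →
      Clean u M I → ∀ B : Finset ℤ, B ⊆ I.powerset.image (val g u) → (0 : ℤ) ∉ B →
      2 ^ I.card ≤ 4 * B.card → ∀ X : Finset ℂ, X.Nonempty → (0 : ℂ) ∉ X →
      c * ((X.card : ℝ) * 2 ^ I.card) ^ (1 - ε) ≤ (AB X B).card := by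
  classical
  obtain ⟨δ, hδ, hs⟩ := spreadA ε hε hε1
  obtain ⟨m, Λ, M, hm, hbΛ, hM, hcnt⟩ := spr_count (δ / 4) (by positivity) 2
  obtain ⟨c, hc, hs⟩ := hs m
  refine ⟨M, c / 4, hM, by positivity, ?_⟩
  intro k g u I hI hu hclean B hB h0B hBc X hX hX0
  obtain ⟨i₀, hi₀⟩ := hI
  obtain ⟨A, hA⟩ : ∃ A : Fin k → Finset ℤ, A = fun i => if i = i₀ then {g, g + u i} else
      if i ∈ I then {0, u i} else {0, 1} := ⟨_, rfl⟩
  obtain ⟨a, ha⟩ : ∃ a : Fin k → ℤ, a = fun i => if i = i₀ then g else 0 := ⟨_, rfl⟩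
  have hA0 : A i₀ = {g, g + u i₀} := by rw [hA]; simp
  have hA1 : ∀ i ∈ I, i ≠ i₀ → A i = {0, u i} := fun i hi hne => by rw [hA]; simp [hne, hi]
  have hA2 : ∀ i, i ∉ I → A i = {0, 1} := by
    intro i hi
    have hne : i ≠ i₀ := fun h => hi (h ▸ hi₀)
    rw [hA]; simp [hne, hi]
  have hcard : ∀ i, (A i).card = 2 := by
    intro i
    by_cases hi : i ∈ I
    · by_cases hne : i = i₀
      · rw [hne, hA0, card_pair]
        intro h0
        exact hu i₀ hi₀ (by linarith)
      · rw [hA1 i hi hne, card_pair (hu i hi).symm]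
    · rw [hA2 i hi]; rfl
  have hmem : ∀ i, a i ∈ A i := by
    intro i
    by_cases hi : i ∈ I
    · by_cases hne : i = i₀
      · rw [hne, hA0, ha]; simp
      · rw [hA1 i hi hne, ha]; simp [hne]
    · have hne : i ≠ i₀ := fun h => hi (h ▸ hi₀)
      rw [hA2 i hi, ha]; simp [hne]
  have hDv : ∀ i ∈ I, ∀ n : ℕ, Dv n (A i) ↔ (n : ℤ) ∣ u i := by
    intro i hi n
    by_cases hne : i = i₀
    · rw [hne, hA0]; exact Dv_pair
    · rw [hA1 i hi hne]; exact Dv_pair0
  have haF : a ∈ Fintype.piFinset (Bf A I a) := mem_Bf.2 ⟨fun i _ => hmem i, fun i _ => rfl⟩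
  have hsa : ∑ i, a i = g := by rw [ha]; simp
  -- the elements of `B` are sums
  have hsum : ∀ b ∈ B, ∃ x ∈ Fintype.piFinset (Bf A I a), ∑ i, x i = b := by
    intro b hb
    obtain ⟨Z, hZ, rfl⟩ := mem_image.1 (hB hb)
    rw [mem_powerset] at hZ
    refine ⟨fun i => (if i = i₀ then g else 0) + if i ∈ Z then u i else 0, ?_, ?_⟩
    · rw [mem_Bf]
      refine ⟨fun i hi => ?_, fun i hi => ?_⟩
      · by_cases hne : i = i₀
        · subst hne
          rw [hA0]
          by_cases hiZ : i ∈ Z <;> simp [hiZ]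
        · rw [hA1 i hi hne]
          by_cases hiZ : i ∈ Z <;> simp [hiZ, hne]
      · have hne : i ≠ i₀ := fun h => hi (h ▸ hi₀)
        have hiZ : i ∉ Z := fun h => hi (hZ h)
        rw [ha]
        simp [hne, hiZ]
    · rw [Finset.sum_add_distrib]
      unfold Helper37EX.val
      congr 1
      · simp
      · rw [Finset.sum_ite_mem, univ_inter]
  have hprod : ∏ i, ((Bf A I a i).card : ℝ) = 2 ^ I.card := by
    have h1 := Bf_card A I a
    have h2 : ∏ i ∈ I, (A i).card = 2 ^ I.card := by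
      rw [Finset.prod_congr rfl fun i _ => hcard i, Finset.prod_const]
    rw [h2] at h1
    exact_mod_cast h1
  have hBr : (2 : ℝ) ^ I.card ≤ 4 * B.card := by exact_mod_cast hBc
  have hBne : B.Nonempty := by
    rw [nonempty_iff_ne_empty]
    rintro rfl
    rw [card_empty, mul_zero] at hBc
    have : 0 < 2 ^ I.card := by positivity
    omega
  -- the typical valuations
  have hval : ∀ p : ℕ, ∃ e : ℕ, p.Prime →
      ((B.filter fun b => m ≤ p ^ ((fa b p : ℤ) - e).natAbs).card : ℝ) ≤ δ * B.card := by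
    intro p
    by_cases hp : p.Prime
    swap
    · exact ⟨0, fun h => absurd h hp⟩
    obtain ⟨e, he1, i1, hi1, he2⟩ := exists_level (A := A) (I := I) ⟨i₀, hi₀⟩
      (fun i => (hcard i).ge) hp
    have hne' : ∀ b ∈ B, b ≠ 0 := fun b hb h => h0B (h ▸ hb)
    by_cases hg : ((p ^ e : ℕ) : ℤ) ∣ g
    · -- many coordinates of minimal valuation
      have h4 : ∀ x ∈ Fintype.piFinset (Bf A I a), ((p ^ e : ℕ) : ℤ) ∣ ∑ i, x i := by
        intro x hx
        have h5 := sum_sub_dvd he1 hx haF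
        rw [hsa] at h5
        simpa using dvd_add h5 hg
      refine ⟨e, fun _ => ?_⟩
      have hex : ∃ j, m ≤ p ^ j := ⟨m, (Nat.lt_pow_self hp.one_lt).le⟩
      have hj := Nat.find_spec hex
      have h6 := hcnt k A I a p e (Nat.find hex) (fun i => (hcard i).ge)
        (fun i => Or.inl (hcard i).le) hp hmem he1 h4
        ⟨I.filter fun i => ¬ ((p ^ (e + 1) : ℕ) : ℤ) ∣ u i, filter_subset _ _, fun i hi => by
          rw [mem_filter] at hi
          rw [hDv i hi.1]
          exact hi.2, Or.inl (hclean p (e + 1) hp ⟨i1, hi1, by rwa [← hDv i1 hi1]⟩)⟩ hj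
      have h7 : (B.filter fun b => m ≤ p ^ ((fa b p : ℤ) - e).natAbs) ⊆
          ((Fintype.piFinset (Bf A I a)).filter fun x =>
            ((p ^ (e + Nat.find hex) : ℕ) : ℤ) ∣ ∑ i, x i).image fun x => ∑ i, x i := by
        intro b hb
        rw [mem_filter] at hb
        obtain ⟨hbB, hbm⟩ := hb
        obtain ⟨x, hx, rfl⟩ := hsum b hbB
        have hb0 := hne' _ hbB
        refine mem_image.2 ⟨x, mem_filter.2 ⟨hx, ?_⟩, rfl⟩
        rw [fa_dvd hp hb0]
        have h8 := (fa_dvd hp hb0).1 (h4 x hx)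
        have h9 : ((fa (∑ i, x i) p : ℤ) - e).natAbs = fa (∑ i, x i) p - e := by omega
        rw [h9] at hbm
        have h10 := Nat.find_min' hex hbm
        omega
      have h8 : ((B.filter fun b => m ≤ p ^ ((fa b p : ℤ) - e).natAbs).card : ℝ) ≤
          δ / 4 * 2 ^ I.card := by
        rw [← hprod]
        refine le_trans ?_ h6
        exact_mod_cast (card_le_card h7).trans card_image_le
      calc _ ≤ δ / 4 * 2 ^ I.card := h8
        _ ≤ δ / 4 * (4 * B.card) := by gcongr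
        _ = δ * B.card := by ring
    · -- safe
      refine ⟨fa g p, fun _ => ?_⟩
      have hemp : (B.filter fun b => m ≤ p ^ ((fa b p : ℤ) - (fa g p : ℕ)).natAbs) = ∅ := by
        rw [filter_eq_empty_iff]
        intro b hb
        obtain ⟨x, hx, rfl⟩ := hsum b hb
        have h5 := sum_sub_dvd he1 hx haF
        rw [hsa] at h5
        have h6 : ¬ ((p ^ e : ℕ) : ℤ) ∣ ∑ i, x i := by
          intro h
          apply hg
          have := dvd_sub h h5
          simpa using this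
        have h7 := fa_eq_of_congr hp h5 h6 hg
        rw [h7, sub_self, Int.natAbs_zero, pow_zero]
        omega
      rw [hemp, card_empty, Nat.cast_zero]
      positivity
  choose e he using hval
  have h1 := hs B hBne h0B ∅ e (fun p hp _ => he p hp) X hX hX0
  rw [parts_empty hBne, Nat.cast_one, div_one] at h1
  refine le_trans ?_ h1
  have hXp : (0 : ℝ) < X.card := by exact_mod_cast card_pos.2 hX
  have h5 : (X.card : ℝ) * 2 ^ I.card / 4 ≤ X.card * B.card := by
    rw [mul_div_assoc]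
    refine mul_le_mul_of_nonneg_left ?_ hXp.le
    linarith
  have h6 := Real.rpow_le_rpow (by positivity) h5 (show 0 ≤ 1 - ε by linarith)
  have h7 : ((X.card : ℝ) * 2 ^ I.card) ^ (1 - ε) / 4 ≤
      ((X.card : ℝ) * 2 ^ I.card / 4) ^ (1 - ε) := by
    rw [Real.div_rpow (by positivity) (by norm_num)]
    have h8 : (4 : ℝ) ^ (1 - ε) ≤ 4 := by
      calc (4 : ℝ) ^ (1 - ε) ≤ 4 ^ (1 : ℝ) :=
            Real.rpow_le_rpow_of_exponent_le (by norm_num) (by linarith)
        _ = 4 := Real.rpow_one 4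
    exact div_le_div_of_nonneg_left (by positivity) (by positivity) h8
  calc c / 4 * ((X.card : ℝ) * 2 ^ I.card) ^ (1 - ε) =
        c * (((X.card : ℝ) * 2 ^ I.card) ^ (1 - ε) / 4) := by ring
    _ ≤ c * ((X.card : ℝ) * B.card) ^ (1 - ε) := mul_le_mul_of_nonneg_left (h7.trans h6) hc.le

end Pool.Agent.Helper37MX
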