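import Mathlib
import Pool.Agent.Helper37MX.Sub

/-!
# Choosing good pairs of fibres
-/

set_option autoImplicit false

namespace Pool.Agent.Helper37MX

open Finset Pool.Agent.Helper37HC Pool.Agent.Helper37EX

lemma clean_sub {k : ℕ} (u : Fin k → ℤ) (M : ℕ) (I : Finset (Fin k)) (T : Finset ℕ) :
    ∃ R ⊆ I, R.card ≤ M * T.card ∧ ∀ q ∈ T, (∃ i ∈ I \ R, ¬ (q : ℤ) ∣ u i) →
      M ≤ ((I \ R).filter fun i => ¬ (q : ℤ) ∣ u i).card := by
  classical
  obtain ⟨C, hC⟩ : ∃ C : Finset (Finset ℕ), C = T.powerset.filter fun T' =>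
      ∃ R ⊆ I, R.card ≤ M * T'.card ∧ ∀ q : ℕ, q ∈ T' → ∀ i ∈ I \ R, (q : ℤ) ∣ u i := ⟨_, rfl⟩
  have hne : C.Nonempty := ⟨∅, by
    rw [hC, mem_filter, mem_powerset]
    exact ⟨empty_subset _, ∅, empty_subset _, by simp, by simp⟩⟩
  obtain ⟨T', hT', hmax⟩ := exists_max_image C card hne
  rw [hC, mem_filter, mem_powerset] at hT'
  obtain ⟨hTT, R, hRI, hRc, hR⟩ := hT'
  refine ⟨R, hRI, hRc.trans (Nat.mul_le_mul_left _ (card_le_card hTT)), ?_⟩
  intro q hq hex
  by_contra hcon
  rw [not_le] at hcon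
  have hqT' : q ∉ T' := by
    intro h
    obtain ⟨i, hi, hqi⟩ := hex
    exact hqi (hR q h i hi)
  have h1 := hmax (insert q T') (by
    rw [hC, mem_filter, mem_powerset]
    refine ⟨insert_subset hq hTT, R ∪ (I \ R).filter fun i => ¬ (q : ℤ) ∣ u i, ?_, ?_, ?_⟩
    · exact union_subset hRI ((filter_subset _ _).trans sdiff_subset)
    · rw [card_insert_of_notMem hqT', mul_add, mul_one]
      exact (card_union_le _ _).trans (Nat.add_le_add hRc hcon.le)
    · intro q' hq' i hi
      rw [mem_sdiff, mem_union, not_or, mem_filter, not_and, not_not, mem_sdiff] at hi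
      rcases mem_insert.1 hq' with rfl | hq'
      · exact hi.2.2 ⟨hi.1, hi.2.1⟩
      · exact hR q' hq' i (mem_sdiff.2 ⟨hi.1, hi.2.1⟩))
  rw [card_insert_of_notMem hqT'] at h1
  omega

lemma exists_fix {k : ℕ} (F I : Finset (Fin k)) (hFI : Disjoint F I)
    (Bad : Finset (Finset (Fin k))) (ρ : ℝ) (hBad : (Bad.card : ℝ) ≤ ρ * 2 ^ k) :
    ∃ z₀ : Finset (Fin k), Disjoint z₀ (F ∪ I) ∧
      (((F.powerset ×ˢ I.powerset).filter fun s => s.1 ∪ s.2 ∪ z₀ ∈ Bad).card : ℝ) ≤
        ρ * (2 ^ F.card * 2 ^ I.card) := by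
  classical
  by_contra hcon
  push Not at hcon
  obtain ⟨E, hE⟩ : ∃ E : Finset (Fin k), E = univ \ (F ∪ I) := ⟨_, rfl⟩
  have hEd : Disjoint E (F ∪ I) := by rw [hE]; exact sdiff_disjoint
  have h1 : ∀ z ∈ E.powerset, ρ * (2 ^ F.card * 2 ^ I.card) <
      (((F.powerset ×ˢ I.powerset).filter fun s => s.1 ∪ s.2 ∪ z ∈ Bad).card : ℝ) := by
    intro z hz
    exact hcon z (disjoint_of_subset_left (mem_powerset.1 hz) hEd)
  have h2 := Finset.sum_lt_sum_of_nonempty ⟨∅, empty_mem_powerset E⟩ h1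
  rw [Finset.sum_const, nsmul_eq_mul, card_powerset] at h2
  have h3 : ∑ z ∈ E.powerset,
      (((F.powerset ×ˢ I.powerset).filter fun s => s.1 ∪ s.2 ∪ z ∈ Bad).card : ℝ) ≤ Bad.card := by
    have h4 : ∑ z ∈ E.powerset,
        ((F.powerset ×ˢ I.powerset).filter fun s => s.1 ∪ s.2 ∪ z ∈ Bad).card =
        ((E.powerset ×ˢ (F.powerset ×ˢ I.powerset)).filter fun t =>
          t.2.1 ∪ t.2.2 ∪ t.1 ∈ Bad).card := by
      simp only [Finset.card_filter]
      rw [Finset.sum_product]
    have h5 : ((E.powerset ×ˢ (F.powerset ×ˢ I.powerset)).filter fun t =>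
        t.2.1 ∪ t.2.2 ∪ t.1 ∈ Bad).card ≤ Bad.card := by
      refine card_le_card_of_injOn (fun t => t.2.1 ∪ t.2.2 ∪ t.1) ?_ ?_
      · intro t ht
        rw [mem_coe, mem_filter] at ht
        exact ht.2
      · have key : ∀ t ∈ E.powerset ×ˢ (F.powerset ×ˢ I.powerset),
            t = ((t.2.1 ∪ t.2.2 ∪ t.1) ∩ E, (t.2.1 ∪ t.2.2 ∪ t.1) ∩ F,
              (t.2.1 ∪ t.2.2 ∪ t.1) ∩ I) := by
          intro t ht
          rw [mem_product, mem_product, mem_powerset, mem_powerset, mem_powerset] at ht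
          obtain ⟨g1, g2, g3⟩ := ht
          have d1 : Disjoint t.2.1 E :=
            (disjoint_of_subset_right (g2.trans subset_union_left) hEd).symm
          have d2 : Disjoint t.2.2 E :=
            (disjoint_of_subset_right (g3.trans subset_union_right) hEd).symm
          have d3 : Disjoint t.1 F :=
            disjoint_of_subset_left g1 (disjoint_of_subset_right subset_union_left hEd)
          have d4 : Disjoint t.1 I :=
            disjoint_of_subset_left g1 (disjoint_of_subset_right subset_union_right hEd)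
          have d5 : Disjoint t.2.2 F := disjoint_of_subset_left g3 hFI.symm
          have d6 : Disjoint t.2.1 I := disjoint_of_subset_left g2 hFI
          refine Prod.ext ?_ (Prod.ext ?_ ?_)
          · dsimp only
            rw [union_inter_distrib_right, union_inter_distrib_right,
              disjoint_iff_inter_eq_empty.1 d1, disjoint_iff_inter_eq_empty.1 d2,
              inter_eq_left.2 g1, empty_union, empty_union]
          · dsimp only
            rw [union_inter_distrib_right, union_inter_distrib_right,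
              disjoint_iff_inter_eq_empty.1 d3, disjoint_iff_inter_eq_empty.1 d5,
              inter_eq_left.2 g2, union_empty, union_empty]
          · dsimp only
            rw [union_inter_distrib_right, union_inter_distrib_right,
              disjoint_iff_inter_eq_empty.1 d4, disjoint_iff_inter_eq_empty.1 d6,
              inter_eq_left.2 g3, empty_union, union_empty]
        intro t ht t' ht' htt
        rw [mem_coe, mem_filter] at ht ht'
        rw [key t ht.1, key t' ht'.1]
        dsimp only at htt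
        rw [htt]
    rw [← h4] at h5
    exact_mod_cast h5
  have h4 : (2 : ℝ) ^ E.card * (ρ * (2 ^ F.card * 2 ^ I.card)) = ρ * 2 ^ k := by
    have h5 : E.card + (F.card + I.card) = k := by
      rw [← card_union_of_disjoint hFI, ← card_union_of_disjoint hEd, hE,
        sdiff_union_of_subset (subset_univ _), card_univ, Fintype.card_fin]
    have h6 : (2 : ℝ) ^ k = 2 ^ (E.card + (F.card + I.card)) := by rw [h5]
    rw [h6, pow_add, pow_add]
    ring
  push_cast at h2
  linarith

lemma bad_fibres {k : ℕ} (F I z₀ : Finset (Fin k)) (Bad : Finset (Finset (Fin k))) (ρ : ℝ)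
    (h : (((F.powerset ×ˢ I.powerset).filter fun s => s.1 ∪ s.2 ∪ z₀ ∈ Bad).card : ℝ) ≤
        ρ * (2 ^ F.card * 2 ^ I.card)) :
    ((F.powerset.filter fun x =>
      2 ^ I.card < 4 * (I.powerset.filter fun z => x ∪ z ∪ z₀ ∈ Bad).card).card : ℝ) ≤
      4 * ρ * 2 ^ F.card := by
  classical
  have h1 : ((F.powerset.filter fun x =>
      2 ^ I.card < 4 * (I.powerset.filter fun z => x ∪ z ∪ z₀ ∈ Bad).card).card : ℝ) *
        2 ^ I.card ≤
      ∑ x ∈ F.powerset, 4 * ((I.powerset.filter fun z => x ∪ z ∪ z₀ ∈ Bad).card : ℝ) := by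
    rw [← nsmul_eq_mul]
    refine (Finset.card_nsmul_le_sum _
      (fun x => 4 * ((I.powerset.filter fun z => x ∪ z ∪ z₀ ∈ Bad).card : ℝ)) _
      fun x hx => ?_).trans
      (Finset.sum_le_sum_of_subset_of_nonneg (filter_subset _ _) fun x _ _ => by positivity)
    have := (mem_filter.1 hx).2.le
    exact_mod_cast this
  have h2 : ∑ x ∈ F.powerset, 4 * ((I.powerset.filter fun z => x ∪ z ∪ z₀ ∈ Bad).card : ℝ) =
      4 * (((F.powerset ×ˢ I.powerset).filter fun s => s.1 ∪ s.2 ∪ z₀ ∈ Bad).card : ℝ) := by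
    rw [← Finset.mul_sum]
    congr 1
    simp only [Finset.card_filter]
    rw [Finset.sum_product]
    push_cast
    rfl
  rw [h2] at h1
  have h3 : (0 : ℝ) < 2 ^ I.card := by positivity
  have h4 : ((F.powerset.filter fun x =>
      2 ^ I.card < 4 * (I.powerset.filter fun z => x ∪ z ∪ z₀ ∈ Bad).card).card : ℝ) *
        2 ^ I.card ≤ (4 * ρ * 2 ^ F.card) * 2 ^ I.card := by
    refine h1.trans ?_
    nlinarith
  exact le_of_mul_le_mul_right h4 h3

lemma prod_ite_card {k : ℕ} (F : Finset (Fin k)) (A : Fin k → Finset ℕ) (n : ℕ)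
    (hA : ∀ i ∈ F, (A i).card = n) :
    (Fintype.piFinset fun i => if i ∈ F then A i else {0}).card = n ^ F.card := by
  classical
  rw [Fintype.card_piFinset]
  have h1 : ∀ i : Fin k, (if i ∈ F then A i else ({0} : Finset ℕ)).card =
      if i ∈ F then n else 1 := by
    intro i
    split_ifs with hi
    · exact hA i hi
    · simp
  rw [Finset.prod_congr rfl fun i _ => h1 i, Finset.prod_ite_mem, univ_inter, Finset.prod_const]

lemma patterns {k : ℕ} (F : Finset (Fin k)) (Bx : Finset (Finset (Fin k))) (β : ℝ)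
    (hB : (Bx.card : ℝ) ≤ β * 2 ^ F.card) :
    ∃ (W : Finset (Fin k → ℕ)) (x y : (Fin k → ℕ) → Finset (Fin k)),
      (∀ w ∈ W, x w ⊆ F ∧ y w ⊆ F ∧ x w ∉ Bx ∧ y w ∉ Bx ∧ (∀ i, i ∉ F → w i = 0) ∧
        ∀ i ∈ F, wt i (x w, y w) = w i) ∧
      (1 - 2 * β) * 3 ^ F.card ≤ W.card := by
  classical
  obtain ⟨Ω, hΩ⟩ : ∃ Ω : Finset (Fin k → ℕ),
      Ω = Fintype.piFinset fun i => if i ∈ F then range 6 else {0} := ⟨_, rfl⟩
  have hΩc : Ω.card = 6 ^ F.card := by
    rw [hΩ]
    exact prod_ite_card F (fun _ => range 6) 6 fun i _ => card_range 6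
  have hΩm : ∀ v ∈ Ω, (∀ i ∈ F, v i < 6) ∧ ∀ i, i ∉ F → v i = 0 := by
    intro v hv
    rw [hΩ, Fintype.mem_piFinset] at hv
    refine ⟨fun i hi => ?_, fun i hi => ?_⟩
    · have := hv i
      rw [if_pos hi, mem_range] at this
      exact this
    · have := hv i
      rw [if_neg hi, mem_singleton] at this
      exact this
  obtain ⟨X, hX⟩ : ∃ X : (Fin k → ℕ) → Finset (Fin k), X = fun v => F.filter fun i => 3 ≤ v i :=
    ⟨_, rfl⟩
  obtain ⟨Y, hY⟩ : ∃ Y : (Fin k → ℕ) → Finset (Fin k),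
      Y = fun v => F.filter fun i => v i = 2 ∨ 4 ≤ v i := ⟨_, rfl⟩
  obtain ⟨w, hw⟩ : ∃ w : (Fin k → ℕ) → (Fin k → ℕ), w = fun v i => v i / 2 := ⟨_, rfl⟩
  -- fibres of `X` and `Y`
  have hXc : ∀ x, (Ω.filter fun v => X v = x).card ≤ 3 ^ F.card := by
    intro x
    rw [← prod_ite_card F (fun i => if i ∈ x then {3, 4, 5} else {0, 1, 2}) 3
      (fun i _ => by split_ifs <;> rfl)]
    refine card_le_card fun v hv => ?_
    rw [mem_filter] at hv
    obtain ⟨h1, h2⟩ := hΩm v hv.1
    rw [Fintype.mem_piFinset]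
    intro i
    by_cases hi : i ∈ F
    · rw [if_pos hi]
      have h3 := h1 i hi
      have h4 : i ∈ x ↔ 3 ≤ v i := by
        rw [← hv.2, hX]
        simp [hi]
      by_cases hix : i ∈ x
      · rw [if_pos hix]
        have := h4.1 hix
        simp only [mem_insert, mem_singleton]
        omega
      · rw [if_neg hix]
        have : ¬ 3 ≤ v i := fun h => hix (h4.2 h)
        simp only [mem_insert, mem_singleton]
        omega
    · rw [if_neg hi, mem_singleton]
      exact h2 i hi
  have hYc : ∀ x, (Ω.filter fun v => Y v = x).card ≤ 3 ^ F.card := by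
    intro x
    rw [← prod_ite_card F (fun i => if i ∈ x then {2, 4, 5} else {0, 1, 3}) 3
      (fun i _ => by split_ifs <;> rfl)]
    refine card_le_card fun v hv => ?_
    rw [mem_filter] at hv
    obtain ⟨h1, h2⟩ := hΩm v hv.1
    rw [Fintype.mem_piFinset]
    intro i
    by_cases hi : i ∈ F
    · rw [if_pos hi]
      have h3 := h1 i hi
      have h4 : i ∈ x ↔ (v i = 2 ∨ 4 ≤ v i) := by
        rw [← hv.2, hY]
        simp [hi]
      by_cases hix : i ∈ x
      · rw [if_pos hix]
        have := h4.1 hix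
        simp only [mem_insert, mem_singleton]
        omega
      · rw [if_neg hix]
        have : ¬ (v i = 2 ∨ 4 ≤ v i) := fun h => hix (h4.2 h)
        simp only [mem_insert, mem_singleton]
        omega
    · rw [if_neg hi, mem_singleton]
      exact h2 i hi
  have hwc : ∀ w', (Ω.filter fun v => w v = w').card ≤ 2 ^ F.card := by
    intro w'
    rw [← prod_ite_card F (fun i => {2 * w' i, 2 * w' i + 1}) 2 (fun i _ => by
      rw [card_pair (by omega)])]
    refine card_le_card fun v hv => ?_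
    rw [mem_filter] at hv
    obtain ⟨h1, h2⟩ := hΩm v hv.1
    rw [Fintype.mem_piFinset]
    intro i
    by_cases hi : i ∈ F
    · rw [if_pos hi, mem_insert, mem_singleton]
      have h4 : v i / 2 = w' i := by
        rw [← hv.2, hw]
      omega
    · rw [if_neg hi, mem_singleton]
      exact h2 i hi
  obtain ⟨G, hG⟩ : ∃ G : Finset (Fin k → ℕ), G = Ω.filter fun v => X v ∉ Bx ∧ Y v ∉ Bx :=
    ⟨_, rfl⟩
  have hGc : 6 ^ F.card ≤ G.card + 2 * (Bx.card * 3 ^ F.card) := by
    rw [← hΩc]
    have h1 : Ω ⊆ G ∪ ((Bx.biUnion fun x => Ω.filter fun v => X v = x) ∪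
        (Bx.biUnion fun x => Ω.filter fun v => Y v = x)) := by
      intro v hv
      rw [mem_union, mem_union, mem_biUnion, mem_biUnion, hG, mem_filter]
      by_cases h2 : X v ∈ Bx
      · exact Or.inr (Or.inl ⟨_, h2, mem_filter.2 ⟨hv, rfl⟩⟩)
      by_cases h3 : Y v ∈ Bx
      · exact Or.inr (Or.inr ⟨_, h3, mem_filter.2 ⟨hv, rfl⟩⟩)
      exact Or.inl ⟨hv, h2, h3⟩
    have h2 := (card_le_card h1).trans ((card_union_le _ _).trans (Nat.add_le_add_left
      ((card_union_le _ _).trans (Nat.add_le_add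
        (card_biUnion_le_card_mul _ _ _ fun x _ => hXc x)
        (card_biUnion_le_card_mul _ _ _ fun x _ => hYc x))) _))
    omega
  have hWc : G.card ≤ (G.image w).card * 2 ^ F.card := by
    rw [mul_comm]
    refine card_le_mul_card_image G _ fun w' _ => ?_
    refine le_trans (card_le_card ?_) (hwc w')
    intro v hv
    rw [mem_filter, hG, mem_filter] at hv
    exact mem_filter.2 ⟨hv.1.1, hv.2⟩
  have hch : ∀ w' : Fin k → ℕ, ∃ v : Fin k → ℕ, w' ∈ G.image w → v ∈ G ∧ w v = w' := by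
    intro w'
    by_cases h : w' ∈ G.image w
    · obtain ⟨v, hv, hv2⟩ := mem_image.1 h
      exact ⟨v, fun _ => ⟨hv, hv2⟩⟩
    · exact ⟨0, fun h' => absurd h' h⟩
  choose v hv using hch
  refine ⟨G.image w, fun w' => X (v w'), fun w' => Y (v w'), ?_, ?_⟩
  · intro w' hw'
    obtain ⟨h1, h2⟩ := hv w' hw'
    rw [hG, mem_filter] at h1
    obtain ⟨h3, h4⟩ := hΩm _ h1.1
    have e1 : ∀ i, v w' i / 2 = w' i := by
      intro i
      have := congrFun h2 i
      rw [hw] at this
      exact this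
    refine ⟨by dsimp only; rw [hX]; exact filter_subset _ _, by
      dsimp only; rw [hY]; exact filter_subset _ _, h1.2.1, h1.2.2, fun i hi => ?_,
      fun i hi => ?_⟩
    · rw [← e1 i, h4 i hi]
    · have h5 : i ∈ X (v w') ↔ 3 ≤ v w' i := by rw [hX]; simp [hi]
      have h6 : i ∈ Y (v w') ↔ (v w' i = 2 ∨ 4 ≤ v w' i) := by rw [hY]; simp [hi]
      have h7 := h3 i hi
      rw [← e1 i]
      unfold wt
      dsimp only
      by_cases g1 : i ∈ X (v w') <;> by_cases g2 : i ∈ Y (v w')
      · rw [if_pos g1, if_pos g2]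
        have := h5.1 g1
        have := h6.1 g2
        omega
      · rw [if_pos g1, if_neg g2]
        have := h5.1 g1
        have : ¬ (v w' i = 2 ∨ 4 ≤ v w' i) := fun h => g2 (h6.2 h)
        omega
      · rw [if_neg g1, if_pos g2]
        have : ¬ 3 ≤ v w' i := fun h => g1 (h5.2 h)
        have := h6.1 g2
        omega
      · rw [if_neg g1, if_neg g2]
        have : ¬ 3 ≤ v w' i := fun h => g1 (h5.2 h)
        have : ¬ (v w' i = 2 ∨ 4 ≤ v w' i) := fun h => g2 (h6.2 h)
        omega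
  · have h1 : (6 : ℝ) ^ F.card ≤ ((G.image w).card : ℝ) * 2 ^ F.card +
        2 * (Bx.card * 3 ^ F.card) := by
      have : 6 ^ F.card ≤ (G.image w).card * 2 ^ F.card + 2 * (Bx.card * 3 ^ F.card) := by
        omega
      exact_mod_cast this
    have h2 : (6 : ℝ) ^ F.card = 3 ^ F.card * 2 ^ F.card := by
      rw [← mul_pow]; norm_num
    have h3 : (0 : ℝ) < 2 ^ F.card := by positivity
    have h4 : (Bx.card : ℝ) * 3 ^ F.card ≤ β * 2 ^ F.card * 3 ^ F.card :=
      mul_le_mul_of_nonneg_right hB (by positivity)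
    have h5 : ((1 - 2 * β) * 3 ^ F.card) * 2 ^ F.card ≤ ((G.image w).card : ℝ) * 2 ^ F.card := by
      rw [h2] at h1
      nlinarith
    exact le_of_mul_le_mul_right h5 h3

end Pool.Agent.Helper37MX
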