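import Mathlib
import Pool.Agent.Helper37MX.Comb

/-!
# Hilbert cubes with some private primes: the bound from products
-/

set_option autoImplicit false

namespace Pool.Agent.Helper37MX

open Finset Pool.Agent.Helper37HC Pool.Agent.Helper37EX Pool.Agent.R849.SV Pool.Agent.R849.RF

lemma val_union {k : ℕ} (a₀ : ℤ) (u : Fin k → ℤ) {S Z : Finset (Fin k)} (h : Disjoint S Z) :
    val a₀ u (S ∪ Z) = val (val a₀ u S) u Z := by
  unfold Helper37EX.val
  rw [Finset.sum_union h]
  ring

/-- products of two large parts of translates of a clean cube -/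
lemma fibre_prod (ε : ℝ) (hε : 0 < ε) (hε1 : ε ≤ 1) : ∃ (M : ℕ) (c : ℝ), 1 ≤ M ∧ 0 < c ∧
    ∀ (k : ℕ) (a₀ : ℤ) (u : Fin k → ℤ), Function.Injective (val a₀ u) →
      ∀ (I x y : Finset (Fin k)), Disjoint x I → Disjoint y I → Clean u M I →
      ∀ Bad : Finset (Finset (Fin k)), (∀ S, S ∉ Bad → val a₀ u S ≠ 0) →
        4 * (I.powerset.filter fun z => x ∪ z ∈ Bad).card ≤ 2 ^ I.card →
        4 * (I.powerset.filter fun z => y ∪ z ∈ Bad).card ≤ 2 ^ I.card →
        c * (4 : ℝ) ^ ((1 - ε) * I.card) ≤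
          ((((I.powerset.image fun z => x ∪ z).filter fun S => S ∉ Bad) ×ˢ
            ((I.powerset.image fun z => y ∪ z).filter fun S => S ∉ Bad)).image fun s =>
              val a₀ u s.1 * val a₀ u s.2).card := by
  classical
  obtain ⟨M, c, hM, hc, h⟩ := done_sub ε hε hε1
  refine ⟨M, min (c / 4) 1, hM, by positivity, ?_⟩
  intro k a₀ u hinj I x y hx hy hcl Bad hBad h1 h2
  -- the number of good sets
  have hgood : ∀ x : Finset (Fin k), Disjoint x I →
      4 * (I.powerset.filter fun z => x ∪ z ∈ Bad).card ≤ 2 ^ I.card →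
      3 * 2 ^ I.card ≤ 4 * ((I.powerset.image fun z => x ∪ z).filter fun S => S ∉ Bad).card := by
    intro x hx h3
    have h4 : ((I.powerset.image fun z => x ∪ z).filter fun S => S ∉ Bad) =
        (I.powerset.filter fun z => ¬ x ∪ z ∈ Bad).image fun z => x ∪ z := by
      rw [filter_image]
    have h5 : ((I.powerset.filter fun z => ¬ x ∪ z ∈ Bad).image fun z => x ∪ z).card =
        (I.powerset.filter fun z => ¬ x ∪ z ∈ Bad).card := by
      refine card_image_of_injOn ?_
      intro z hz z' hz' hzz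
      rw [mem_coe, mem_filter, mem_powerset] at hz hz'
      have g1 : (x ∪ z) ∩ I = z := by
        rw [union_inter_distrib_right, disjoint_iff_inter_eq_empty.1 hx, empty_union,
          inter_eq_left.2 hz.1]
      have g2 : (x ∪ z') ∩ I = z' := by
        rw [union_inter_distrib_right, disjoint_iff_inter_eq_empty.1 hx, empty_union,
          inter_eq_left.2 hz'.1]
      dsimp only at hzz
      rw [← g1, ← g2, hzz]
    have h6 := Finset.card_filter_add_card_filter_not (s := I.powerset) (fun z => x ∪ z ∈ Bad)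
    rw [card_powerset] at h6
    rw [h4, h5]
    omega
  obtain ⟨SX, hSX⟩ : ∃ SX : Finset (Finset (Fin k)),
      SX = (I.powerset.image fun z => x ∪ z).filter fun S => S ∉ Bad := ⟨_, rfl⟩
  obtain ⟨SY, hSY⟩ : ∃ SY : Finset (Finset (Fin k)),
      SY = (I.powerset.image fun z => y ∪ z).filter fun S => S ∉ Bad := ⟨_, rfl⟩
  have g1 := hgood x hx h1
  have g2 := hgood y hy h2
  rw [← hSX] at g1
  rw [← hSY] at g2
  rw [← hSX, ← hSY]
  have hpow : 0 < 2 ^ I.card := by positivity
  have hSXn : SX.Nonempty := card_pos.1 (by omega)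
  have hSYn : SY.Nonempty := card_pos.1 (by omega)
  obtain ⟨Pi, hPi⟩ : ∃ Pi : Finset ℤ,
      Pi = (SX ×ˢ SY).image fun s => val a₀ u s.1 * val a₀ u s.2 := ⟨_, rfl⟩
  rw [← hPi]
  have hPi1 : (1 : ℝ) ≤ Pi.card := by
    have : 0 < Pi.card := by
      rw [hPi]
      exact card_pos.2 ((hSXn.product hSYn).image _)
    exact_mod_cast this
  rcases I.eq_empty_or_nonempty with hI | hI
  · refine le_trans ?_ hPi1
    rw [hI, card_empty, Nat.cast_zero, mul_zero, Real.rpow_zero, mul_one]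
    exact min_le_right _ _
  · obtain ⟨B, hB⟩ : ∃ B : Finset ℤ, B = SX.image (val a₀ u) := ⟨_, rfl⟩
    obtain ⟨A, hA⟩ : ∃ A : Finset ℤ, A = SY.image (val a₀ u) := ⟨_, rfl⟩
    have hBc : B.card = SX.card := by rw [hB]; exact card_image_of_injective _ hinj
    have hAc : A.card = SY.card := by rw [hA]; exact card_image_of_injective _ hinj
    have hB0 : (0 : ℤ) ∉ B := by
      rw [hB]
      intro h0
      obtain ⟨S, hS, hS0⟩ := mem_image.1 h0
      rw [hSX, mem_filter] at hS
      exact hBad S hS.2 hS0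
    have hA0 : (0 : ℤ) ∉ A := by
      rw [hA]
      intro h0
      obtain ⟨S, hS, hS0⟩ := mem_image.1 h0
      rw [hSY, mem_filter] at hS
      exact hBad S hS.2 hS0
    have hBsub : B ⊆ I.powerset.image (val (val a₀ u x) u) := by
      rw [hB]
      intro b hb
      obtain ⟨S, hS, rfl⟩ := mem_image.1 hb
      rw [hSX, mem_filter] at hS
      obtain ⟨z, hz, rfl⟩ := mem_image.1 hS.1
      refine mem_image.2 ⟨z, hz, ?_⟩
      rw [mem_powerset] at hz
      rw [val_union]
      exact disjoint_of_subset_right hz hx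
    have h3 := h k (val a₀ u x) u I hI (fun i _ => ne_zero_of_inj hinj i) hcl B hBsub hB0
      (by omega) (A.image fun a : ℤ => (a : ℂ)) ((card_pos.1 (by
        rw [hAc]; exact card_pos.2 hSYn)).image _) (by
        intro h0
        obtain ⟨a, ha, ha0⟩ := mem_image.1 h0
        have : a = 0 := by exact_mod_cast ha0
        exact hA0 (this ▸ ha))
    rw [card_image_of_injective _ Int.cast_injective, hAc] at h3
    have h4 : (AB (A.image fun a : ℤ => (a : ℂ)) B).card ≤ Pi.card := by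
      have h5 : AB (A.image fun a : ℤ => (a : ℂ)) B ⊆ Pi.image fun a : ℤ => (a : ℂ) := by
        intro z hz
        obtain ⟨⟨a, b⟩, hab, rfl⟩ := mem_image.1 hz
        rw [mem_product] at hab
        obtain ⟨ha, hb⟩ := hab
        obtain ⟨a', ha', haa⟩ := mem_image.1 ha
        rw [hA] at ha'
        obtain ⟨R, hR, hRa⟩ := mem_image.1 ha'
        dsimp only at hb haa
        rw [hB] at hb
        obtain ⟨S, hS, hSb⟩ := mem_image.1 hb
        refine mem_image.2 ⟨val a₀ u S * val a₀ u R, ?_, ?_⟩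
        · rw [hPi]
          exact mem_image.2 ⟨(S, R), mem_product.2 ⟨hS, hR⟩, rfl⟩
        · rw [hSb, hRa, ← haa]
          push_cast
          ring
      exact (card_le_card h5).trans card_image_le
    have h5 : ((AB (A.image fun a : ℤ => (a : ℂ)) B).card : ℝ) ≤ Pi.card := by exact_mod_cast h4
    refine le_trans ?_ (h3.trans h5)
    have h6 : (4 : ℝ) ^ I.card / 2 ≤ (SY.card : ℝ) * 2 ^ I.card := by
      have h7 : 3 * (2 : ℝ) ^ I.card ≤ 4 * SY.card := by exact_mod_cast g2
      have h8 : (4 : ℝ) ^ I.card = 2 ^ I.card * 2 ^ I.card := by rw [← mul_pow]; norm_num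
      have h9 : (0 : ℝ) < 2 ^ I.card := by positivity
      rw [h8]
      nlinarith
    have h7 := Real.rpow_le_rpow (by positivity) h6 (show 0 ≤ 1 - ε by linarith)
    have h8 : (4 : ℝ) ^ ((1 - ε) * I.card) / 4 ≤ ((4 : ℝ) ^ I.card / 2) ^ (1 - ε) := by
      rw [Real.div_rpow (by positivity) (by norm_num), mul_comm (1 - ε), Real.rpow_mul (by norm_num),
        Real.rpow_natCast]
      have h9 : (2 : ℝ) ^ (1 - ε) ≤ 4 := by
        calc (2 : ℝ) ^ (1 - ε) ≤ 2 ^ (1 : ℝ) :=
              Real.rpow_le_rpow_of_exponent_le (by norm_num) (by linarith)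
          _ ≤ 4 := by norm_num
      exact div_le_div_of_nonneg_left (by positivity) (by positivity) h9
    calc min (c / 4) 1 * (4 : ℝ) ^ ((1 - ε) * I.card) ≤ c / 4 * (4 : ℝ) ^ ((1 - ε) * I.card) :=
          mul_le_mul_of_nonneg_right (min_le_left _ _) (by positivity)
      _ = c * ((4 : ℝ) ^ ((1 - ε) * I.card) / 4) := by ring
      _ ≤ c * ((SY.card : ℝ) * 2 ^ I.card) ^ (1 - ε) :=
          mul_le_mul_of_nonneg_left (h8.trans h7) hc.le

theorem t1core (ε : ℝ) (hε : 0 < ε) (hε1 : ε ≤ 1) : ∃ (M : ℕ) (c : ℝ), 1 ≤ M ∧ 0 < c ∧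
    ∀ (k : ℕ) (a₀ : ℤ) (u : Fin k → ℤ), Function.Injective (val a₀ u) → 6 ≤ k →
      ∀ F I : Finset (Fin k), Disjoint F I → Clean u M I →
      ∀ τ Fb : ℝ, 0 < τ → (∀ i ∈ F, Rec2 a₀ u (τ / 128) i) →
        ((univ.filter fun T : Finset (Fin k) => (T.card : ℝ) ≤ 2 * τ * k).card : ℝ) ≤ Fb →
        c * (3 ^ F.card * (4 : ℝ) ^ ((1 - ε) * I.card)) ≤ (prods a₀ u).card * Fb := by
  classical
  obtain ⟨M, c, hM, hc, h⟩ := fibre_prod ε hε hε1
  refine ⟨M, c / 2, hM, by positivity, ?_⟩
  intro k a₀ u hinj hk F I hFI hcl τ Fb hτ hrec hFb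
  have hkr : (6 : ℝ) ≤ k := by exact_mod_cast hk
  have hτk : 0 < τ * k := by positivity
  have h64 : (64 : ℝ) ≤ 2 ^ k := by
    calc (64 : ℝ) = 2 ^ 6 := by norm_num
      _ ≤ 2 ^ k := pow_le_pow_right₀ (by norm_num) hk
  have hrec' : ∀ i, ∃ (D : Finset (Finset (Fin k)))
      (Amb : Finset (Finset (Fin k) × Finset (Fin k))) (dec : ℤ → Prop → ℕ),
      i ∈ F → (∀ s : Finset (Fin k) × Finset (Fin k), val a₀ u s.1 ≠ 0 → val a₀ u s.2 ≠ 0 →
          dec (val a₀ u s.1 * val a₀ u s.2) (s ∈ Amb) = wt i s) ∧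
        (∀ s ∈ Amb, s.1 ∈ D ∨ s.2 ∈ D) ∧ (D.card : ℝ) ≤ τ / 128 * 2 ^ k := by
    intro i
    by_cases hi : i ∈ F
    · obtain ⟨D, Amb, dec, g⟩ := hrec i hi
      exact ⟨D, Amb, dec, fun _ => g⟩
    · exact ⟨∅, ∅, fun _ _ => 0, fun h' => absurd h' hi⟩
  choose D Amb dec hD using hrec'
  -- the bad elements
  obtain ⟨Bad, hBad⟩ : ∃ Bad : Finset (Finset (Fin k)), Bad = univ.filter fun S =>
      val a₀ u S = 0 ∨ τ * k < ((F.filter fun i => S ∈ D i).card : ℝ) := ⟨_, rfl⟩
  have hBadc : (Bad.card : ℝ) ≤ 1 / 32 * 2 ^ k := by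
    have h1 : Bad ⊆ (univ.filter fun S => val a₀ u S = 0) ∪
        univ.filter fun S => τ * k < ((F.filter fun i => S ∈ D i).card : ℝ) := by
      intro S hS
      rw [hBad, mem_filter] at hS
      rw [mem_union, mem_filter, mem_filter]
      rcases hS.2 with h' | h'
      · exact Or.inl ⟨mem_univ _, h'⟩
      · exact Or.inr ⟨mem_univ _, h'⟩
    have h2 : (univ.filter fun S => val a₀ u S = 0).card ≤ 1 := by
      rw [card_le_one]
      intro S hS R hR
      rw [mem_filter] at hS hR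
      exact hinj (hS.2.trans hR.2.symm)
    have h3 : ((univ.filter fun S : Finset (Fin k) =>
        τ * k < ((F.filter fun i => S ∈ D i).card : ℝ)).card : ℝ) * (τ * k) ≤
        1 / 128 * 2 ^ k * (τ * k) := by
      have g1 : ((univ.filter fun S : Finset (Fin k) =>
          τ * k < ((F.filter fun i => S ∈ D i).card : ℝ)).card : ℝ) * (τ * k) ≤
          ∑ S : Finset (Fin k), ((F.filter fun i => S ∈ D i).card : ℝ) := by
        rw [← nsmul_eq_mul]
        refine (Finset.card_nsmul_le_sum _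
          (fun S : Finset (Fin k) => ((F.filter fun i => S ∈ D i).card : ℝ)) _
          fun s hs => ?_).trans
          (Finset.sum_le_sum_of_subset_of_nonneg (filter_subset _ _)
            fun s _ _ => Nat.cast_nonneg _)
        exact (mem_filter.1 hs).2.le
      have g2 : ∑ S : Finset (Fin k), ((F.filter fun i => S ∈ D i).card : ℝ) =
          ∑ i ∈ F, ((D i).card : ℝ) := by
        simp only [Finset.card_filter]
        push_cast
        rw [Finset.sum_comm]
        refine Finset.sum_congr rfl fun i _ => ?_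
        simp
      rw [g2] at g1
      refine g1.trans ?_
      calc ∑ i ∈ F, ((D i).card : ℝ) ≤ ∑ i ∈ F, τ / 128 * 2 ^ k :=
            Finset.sum_le_sum fun i hi => (hD i hi).2.2
        _ = F.card * (τ / 128 * 2 ^ k) := by rw [Finset.sum_const, nsmul_eq_mul]
        _ ≤ k * (τ / 128 * 2 ^ k) := by
            refine mul_le_mul_of_nonneg_right ?_ (by positivity)
            have := card_le_univ F
            rw [Fintype.card_fin] at this
            exact_mod_cast this
        _ = 1 / 128 * 2 ^ k * (τ * k) := by ring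
    have h4 := le_of_mul_le_mul_right h3 hτk
    have h5 : (Bad.card : ℝ) ≤ (univ.filter fun S => val a₀ u S = 0).card +
        ((univ.filter fun S : Finset (Fin k) =>
          τ * k < ((F.filter fun i => S ∈ D i).card : ℝ)).card : ℝ) := by
      exact_mod_cast (card_le_card h1).trans (card_union_le _ _)
    have h6 : ((univ.filter fun S => val a₀ u S = 0).card : ℝ) ≤ 1 := by exact_mod_cast h2
    linarith
  have hBad0 : ∀ S, S ∉ Bad → val a₀ u S ≠ 0 := by
    intro S hS h0
    apply hS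
    rw [hBad, mem_filter]
    exact ⟨mem_univ _, Or.inl h0⟩
  have hBadD : ∀ S, S ∉ Bad → ((F.filter fun i => S ∈ D i).card : ℝ) ≤ τ * k := by
    intro S hS
    by_contra hcon
    apply hS
    rw [hBad, mem_filter]
    exact ⟨mem_univ _, Or.inr (not_le.1 hcon)⟩
  -- fix the remaining coordinates
  obtain ⟨z₀, hz₀, hfix⟩ := exists_fix F I hFI Bad (1 / 32) hBadc
  have hbf := bad_fibres F I z₀ Bad (1 / 32) hfix
  obtain ⟨Bx, hBx⟩ : ∃ Bx : Finset (Finset (Fin k)), Bx = F.powerset.filter fun x =>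
      2 ^ I.card < 4 * (I.powerset.filter fun z => x ∪ z ∪ z₀ ∈ Bad).card := ⟨_, rfl⟩
  rw [← hBx] at hbf
  obtain ⟨W, x, y, hW, hWc⟩ := patterns F Bx (4 * (1 / 32)) hbf
  have hz₀F : Disjoint z₀ F := disjoint_of_subset_right subset_union_left hz₀
  have hz₀I : Disjoint z₀ I := disjoint_of_subset_right subset_union_right hz₀
  -- the fibres
  have hok : ∀ x' : Finset (Fin k), x' ⊆ F → x' ∉ Bx → Disjoint (x' ∪ z₀) I ∧
      4 * (I.powerset.filter fun z => (x' ∪ z₀) ∪ z ∈ Bad).card ≤ 2 ^ I.card := by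
    intro x' hx' hxB
    refine ⟨disjoint_union_left.2 ⟨disjoint_of_subset_left hx' hFI, hz₀I⟩, ?_⟩
    by_contra hcon
    apply hxB
    rw [hBx, mem_filter, mem_powerset]
    refine ⟨hx', ?_⟩
    rw [not_le] at hcon
    have : (I.powerset.filter fun z => x' ∪ z₀ ∪ z ∈ Bad) =
        I.powerset.filter fun z => x' ∪ z ∪ z₀ ∈ Bad := by
      refine filter_congr fun z _ => ?_
      rw [union_assoc, union_comm z₀ z, ← union_assoc]
    rwa [this] at hcon
  obtain ⟨SS, hSS⟩ : ∃ SS : Finset (Fin k) → Finset (Finset (Fin k)), SS = fun x' =>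
      (I.powerset.image fun z => (x' ∪ z₀) ∪ z).filter fun S => S ∉ Bad := ⟨_, rfl⟩
  have hSSm : ∀ x' : Finset (Fin k), x' ⊆ F → ∀ S ∈ SS x', S ∉ Bad ∧ ∀ i ∈ F, (i ∈ S ↔ i ∈ x') := by
    intro x' hx' S hS
    rw [hSS] at hS
    dsimp only at hS
    rw [mem_filter] at hS
    obtain ⟨hS1, hS2⟩ := hS
    obtain ⟨z, hz, rfl⟩ := mem_image.1 hS1
    rw [mem_powerset] at hz
    refine ⟨hS2, fun i hi => ?_⟩
    have g1 : i ∉ z := fun h' => (disjoint_left.1 hFI) hi (hz h')
    have g2 : i ∉ z₀ := fun h' => (disjoint_left.1 hz₀F) h' hi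
    simp [g1, g2]
  obtain ⟨Pi, hPi⟩ : ∃ Pi : (Fin k → ℕ) → Finset ℤ, Pi = fun w =>
      (SS (x w) ×ˢ SS (y w)).image fun s => val a₀ u s.1 * val a₀ u s.2 := ⟨_, rfl⟩
  have hPic : ∀ w ∈ W, c * (4 : ℝ) ^ ((1 - ε) * I.card) ≤ (Pi w).card := by
    intro w hw
    obtain ⟨g1, g2, g3, g4, -, -⟩ := hW w hw
    obtain ⟨f1, f2⟩ := hok (x w) g1 g3
    obtain ⟨f3, f4⟩ := hok (y w) g2 g4
    have := h k a₀ u hinj I (x w ∪ z₀) (y w ∪ z₀) f1 f3 hcl Bad hBad0 f2 f4
    rw [hPi, hSS]
    exact this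
  -- the multiplicity
  have hmult : ((W.sigma Pi).card : ℝ) ≤ (prods a₀ u).card * Fb := by
    have hch : ∀ t : (Σ _ : Fin k → ℕ, ℤ), ∃ s : Finset (Fin k) × Finset (Fin k),
        t ∈ W.sigma Pi → s.1 ∈ SS (x t.1) ∧ s.2 ∈ SS (y t.1) ∧
          val a₀ u s.1 * val a₀ u s.2 = t.2 := by
      intro t
      by_cases ht : t ∈ W.sigma Pi
      · have h1 := (mem_sigma.1 ht).2
        rw [hPi] at h1
        obtain ⟨s, hs, hs2⟩ := mem_image.1 h1
        rw [mem_product] at hs
        exact ⟨s, fun _ => ⟨hs.1, hs.2, hs2⟩⟩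
      · exact ⟨(∅, ∅), fun h' => absurd h' ht⟩
    choose s hs using hch
    have h1 : (W.sigma Pi).card ≤ (prods a₀ u ×ˢ
        (univ.filter fun T : Finset (Fin k) => (T.card : ℝ) ≤ 2 * τ * k)).card := by
      refine card_le_card_of_injOn (fun t => (t.2, F.filter fun i => s t ∈ Amb i)) ?_ ?_
      · intro t ht
        rw [mem_coe] at ht
        obtain ⟨g1, g2, g3⟩ := hs t ht
        obtain ⟨f1, f2, -, -, -, -⟩ := hW t.1 (mem_sigma.1 ht).1
        rw [mem_coe, mem_product]
        refine ⟨?_, ?_⟩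
        · dsimp only
          rw [← g3]
          exact mem_image.2 ⟨s t, mem_univ _, rfl⟩
        · rw [mem_filter]
          refine ⟨mem_univ _, ?_⟩
          dsimp only
          have e1 := hBadD _ (hSSm _ f1 _ g1).1
          have e2 := hBadD _ (hSSm _ f2 _ g2).1
          have e3 : (F.filter fun i => s t ∈ Amb i) ⊆ (F.filter fun i => (s t).1 ∈ D i) ∪
              F.filter fun i => (s t).2 ∈ D i := by
            intro i hi
            rw [mem_filter] at hi
            rw [mem_union, mem_filter, mem_filter]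
            rcases (hD i hi.1).2.1 _ hi.2 with h' | h'
            · exact Or.inl ⟨hi.1, h'⟩
            · exact Or.inr ⟨hi.1, h'⟩
          have e4 : ((F.filter fun i => s t ∈ Amb i).card : ℝ) ≤
              (F.filter fun i => (s t).1 ∈ D i).card + (F.filter fun i => (s t).2 ∈ D i).card := by
            exact_mod_cast (card_le_card e3).trans (card_union_le _ _)
          linarith
      · intro t ht t' ht' htt
        rw [mem_coe] at ht ht'
        rw [Prod.mk.injEq] at htt
        obtain ⟨q1, q2⟩ := htt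
        obtain ⟨g1, g2, g3⟩ := hs t ht
        obtain ⟨g1', g2', g3'⟩ := hs t' ht'
        obtain ⟨f1, f2, -, -, f5, f6⟩ := hW t.1 (mem_sigma.1 ht).1
        obtain ⟨f1', f2', -, -, f5', f6'⟩ := hW t'.1 (mem_sigma.1 ht').1
        have key : ∀ (t : (Σ _ : Fin k → ℕ, ℤ)) (i : Fin k), i ∈ F → x t.1 ⊆ F → y t.1 ⊆ F →
            (s t).1 ∈ SS (x t.1) → (s t).2 ∈ SS (y t.1) → wt i (x t.1, y t.1) = wt i (s t) := by
          intro t i hi p1 p2 p3 p4
          have r1 := (hSSm _ p1 _ p3).2 i hi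
          have r2 := (hSSm _ p2 _ p4).2 i hi
          unfold Helper37EX.wt
          simp only [r1, r2]
        have e1 : t.1 = t'.1 := by
          funext i
          by_cases hi : i ∈ F
          · rw [← f6 i hi, ← f6' i hi, key t i hi f1 f2 g1 g2, key t' i hi f1' f2' g1' g2',
              ← (hD i hi).1 (s t) (hBad0 _ (hSSm _ f1 _ g1).1) (hBad0 _ (hSSm _ f2 _ g2).1),
              ← (hD i hi).1 (s t') (hBad0 _ (hSSm _ f1' _ g1').1) (hBad0 _ (hSSm _ f2' _ g2').1),
              g3, g3', q1]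
            have r := Finset.ext_iff.1 q2 i
            simp only [mem_filter, hi, true_and] at r
            rw [r]
          · rw [f5 i hi, f5' i hi]
        exact Sigma.ext e1 (heq_of_eq q1)
    rw [card_product] at h1
    have h2 : ((W.sigma Pi).card : ℝ) ≤ (prods a₀ u).card *
        ((univ.filter fun T : Finset (Fin k) => (T.card : ℝ) ≤ 2 * τ * k).card : ℝ) := by
      exact_mod_cast h1
    exact h2.trans (mul_le_mul_of_nonneg_left hFb (Nat.cast_nonneg _))
  refine le_trans ?_ hmult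
  rw [card_sigma]
  push_cast
  have h1 : (W.card : ℝ) * (c * (4 : ℝ) ^ ((1 - ε) * I.card)) ≤ ∑ w ∈ W, ((Pi w).card : ℝ) := by
    rw [← nsmul_eq_mul]
    exact Finset.card_nsmul_le_sum _ _ _ hPic
  refine le_trans ?_ h1
  have h2 : (1 / 2 : ℝ) * 3 ^ F.card ≤ W.card := by
    refine le_trans ?_ hWc
    have : (0 : ℝ) < 3 ^ F.card := by positivity
    nlinarith
  calc c / 2 * (3 ^ F.card * (4 : ℝ) ^ ((1 - ε) * I.card)) =
        (1 / 2 * 3 ^ F.card) * (c * (4 : ℝ) ^ ((1 - ε) * I.card)) := by ring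
    _ ≤ W.card * (c * (4 : ℝ) ^ ((1 - ε) * I.card)) :=
        mul_le_mul_of_nonneg_right h2 (by positivity)

end Pool.Agent.Helper37MX
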