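import Mathlib
import Pool.Agent.Helper37MX.Core

/-!
# Hilbert cubes with some private primes
-/

set_option autoImplicit false

namespace Pool.Agent.Helper37MX

open Finset Pool.Agent.Helper37HC Pool.Agent.Helper37EX

theorem t1 (ε κ : ℝ) (hε : 0 < ε) (hε1 : ε ≤ 1) (hκ : 0 < κ) :
    ∃ (M : ℕ) (η c : ℝ), 0 < η ∧ 0 < c ∧
      ∀ (k : ℕ) (a₀ : ℤ) (u : Fin k → ℤ), Function.Injective (val a₀ u) →
        ∀ I : Finset (Fin k), (∀ i, i ∉ I → Exposed a₀ u M i) →
        ∀ T : Finset ℕ, (T.card : ℝ) ≤ η * I.card →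
        (∀ p e : ℕ, p.Prime → (∃ i ∈ I, ¬ ((p ^ e : ℕ) : ℤ) ∣ u i) →
          ((I.filter fun i => ¬ ((p ^ e : ℕ) : ℤ) ∣ u i).card : ℝ) ≤ κ * I.card → p ^ e ∈ T) →
        c * (3 ^ (k - I.card) * 4 ^ I.card * (2 : ℝ) ^ (-(ε * k))) ≤ (prods a₀ u).card := by
  classical
  have hl2 : 0 < Real.log 2 := Real.log_pos (by norm_num)
  obtain ⟨M₁, c₁, hM₁, hc₁, hcore⟩ := t1core (ε / 8) (by positivity) (by linarith)
  have hM₁r : (1 : ℝ) ≤ M₁ := by exact_mod_cast hM₁
  obtain ⟨τ', hτ', hfew⟩ := params (ε / 2 * Real.log 2) (by positivity)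
  obtain ⟨m, M, -, hrec⟩ := rec2_of (τ' / 2 / 128) (by positivity)
  obtain ⟨η, hη⟩ : ∃ η : ℝ, η = min (κ / (2 * M₁)) (ε / 8 / M₁) := ⟨_, rfl⟩
  have hη0 : 0 < η := by rw [hη]; positivity
  have hη1 : M₁ * η ≤ κ / 2 := by
    have : η ≤ κ / (2 * M₁) := by rw [hη]; exact min_le_left _ _
    calc M₁ * η ≤ M₁ * (κ / (2 * M₁)) := by gcongr
      _ = κ / 2 := by field_simp
  have hη2 : M₁ * η ≤ ε / 8 := by
    have : η ≤ ε / 8 / M₁ := by rw [hη]; exact min_le_right _ _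
    calc M₁ * η ≤ M₁ * (ε / 8 / M₁) := by gcongr
      _ = ε / 8 := by field_simp
  obtain ⟨K, hK⟩ : ∃ K : ℕ, K = ⌈2 * (M₁ : ℝ) / κ⌉₊ := ⟨_, rfl⟩
  obtain ⟨C, hC⟩ : ∃ C : ℝ, C = 3 ^ m * 4 ^ K * 4 ^ 6 := ⟨_, rfl⟩
  have hC0 : 0 < C := by rw [hC]; positivity
  refine ⟨M, η, min c₁ 1 / C, hη0, by positivity, ?_⟩
  intro k a₀ u hinj I hI T hT hpop
  have hIk : I.card ≤ k := by
    have := card_le_univ I
    rwa [Fintype.card_fin] at this
  have hkr : (0 : ℝ) ≤ k := Nat.cast_nonneg _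
  have hIkr : (I.card : ℝ) ≤ k := by exact_mod_cast hIk
  rcases lt_or_ge k 6 with hk | hk
  · refine le_trans ?_ (prods_pos a₀ u)
    have h1 : (3 : ℝ) ^ (k - I.card) * 4 ^ I.card ≤ 4 ^ 6 := by
      calc (3 : ℝ) ^ (k - I.card) * 4 ^ I.card ≤ 4 ^ (k - I.card) * 4 ^ I.card := by
            gcongr
            norm_num
        _ = 4 ^ k := by rw [← pow_add, Nat.sub_add_cancel hIk]
        _ ≤ 4 ^ 6 := pow_le_pow_right₀ (by norm_num) hk.le
    have h2 : (2 : ℝ) ^ (-(ε * k)) ≤ 1 := by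
      refine Real.rpow_le_one_of_one_le_of_nonpos (by norm_num) ?_
      have : 0 ≤ ε * k := by positivity
      linarith
    have h3 : (3 : ℝ) ^ (k - I.card) * 4 ^ I.card * (2 : ℝ) ^ (-(ε * k)) ≤ 4 ^ 6 := by
      calc _ ≤ (4 : ℝ) ^ 6 * 1 := mul_le_mul h1 h2 (by positivity) (by positivity)
        _ = 4 ^ 6 := mul_one _
    rw [div_mul_eq_mul_div, div_le_one hC0]
    have h4 : (1 : ℝ) ≤ 3 ^ m * 4 ^ K :=
      one_le_mul_of_one_le_of_one_le (one_le_pow₀ (by norm_num)) (one_le_pow₀ (by norm_num))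
    calc min c₁ 1 * ((3 : ℝ) ^ (k - I.card) * 4 ^ I.card * (2 : ℝ) ^ (-(ε * k)))
        ≤ 1 * 4 ^ 6 := mul_le_mul (min_le_right _ _) h3 (by positivity) (by norm_num)
      _ ≤ (3 ^ m * 4 ^ K) * 4 ^ 6 := by gcongr
      _ = C := by rw [hC]
  · -- the removed indices
    have hR : ∃ R ⊆ I, (R.card : ℝ) ≤ ε / 8 * I.card + K ∧ Clean u M₁ (I \ R) := by
      rcases lt_or_ge (I.card : ℝ) (2 * M₁ / κ) with hsm | hbig
      · refine ⟨I, Subset.refl _, ?_, ?_⟩
        · have h1 : (I.card : ℝ) ≤ K := by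
            rw [hK]
            exact hsm.le.trans (Nat.le_ceil _)
          have : (0 : ℝ) ≤ ε / 8 * I.card := by positivity
          linarith
        · intro p e _ hex
          obtain ⟨i, hi, -⟩ := hex
          rw [sdiff_self] at hi
          exact absurd hi (notMem_empty i)
      · obtain ⟨R, hRI, hRc, hR⟩ := clean_sub u M₁ I T
        have hRr : (R.card : ℝ) ≤ M₁ * η * I.card := by
          calc (R.card : ℝ) ≤ M₁ * T.card := by exact_mod_cast hRc
            _ ≤ M₁ * (η * I.card) := by gcongr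
            _ = M₁ * η * I.card := by ring
        refine ⟨R, hRI, ?_, ?_⟩
        · have h1 : M₁ * η * I.card ≤ ε / 8 * I.card := by gcongr
          have h2 : (0 : ℝ) ≤ K := Nat.cast_nonneg _
          linarith
        · intro p e hp hex
          by_cases hpe : p ^ e ∈ T
          · exact hR _ hpe hex
          · obtain ⟨i, hi, hiu⟩ := hex
            have h1 : κ * I.card < ((I.filter fun i => ¬ ((p ^ e : ℕ) : ℤ) ∣ u i).card : ℝ) := by
              by_contra hcon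
              exact hpe (hpop p e hp ⟨i, (mem_sdiff.1 hi).1, hiu⟩ (not_lt.1 hcon))
            have h2 : (I.filter fun i => ¬ ((p ^ e : ℕ) : ℤ) ∣ u i).card ≤
                ((I \ R).filter fun i => ¬ ((p ^ e : ℕ) : ℤ) ∣ u i).card + R.card := by
              refine le_trans (card_le_card ?_) (card_union_le _ _)
              intro j hj
              rw [mem_filter] at hj
              rw [mem_union, mem_filter, mem_sdiff]
              by_cases hjR : j ∈ R
              · exact Or.inr hjR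
              · exact Or.inl ⟨⟨hj.1, hjR⟩, hj.2⟩
            have h3 : ((I.filter fun i => ¬ ((p ^ e : ℕ) : ℤ) ∣ u i).card : ℝ) ≤
                ((I \ R).filter fun i => ¬ ((p ^ e : ℕ) : ℤ) ∣ u i).card + R.card := by
              exact_mod_cast h2
            have h4 : M₁ * η * I.card ≤ κ / 2 * I.card := by gcongr
            have h5 : (M₁ : ℝ) ≤ κ / 2 * I.card := by
              rw [div_le_iff₀ hκ] at hbig
              linarith
            have h6 : (M₁ : ℝ) ≤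
                (((I \ R).filter fun i => ¬ ((p ^ e : ℕ) : ℤ) ∣ u i).card : ℝ) := by
              linarith
            exact_mod_cast h6
    obtain ⟨R, hRI, hRc, hclean⟩ := hR
    obtain ⟨N, hNd⟩ : ∃ N : Finset (Fin k), N = univ.filter fun i => Exposed a₀ u M i ∧
        ¬ Rec2 a₀ u (τ' / 2 / 128) i := ⟨_, rfl⟩
    have hNc : N.card ≤ m := by
      have h3 := hrec k a₀ u fun j => ne_zero_of_inj hinj j
      have e1 : {i : Fin k | Exposed a₀ u M i ∧ ¬ Rec2 a₀ u (τ' / 2 / 128) i} =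
          ((univ.filter fun i => Exposed a₀ u M i ∧ ¬ Rec2 a₀ u (τ' / 2 / 128) i :
            Finset (Fin k)) : Set (Fin k)) := by ext j; simp
      rw [e1, Set.ncard_coe_finset, ← hNd] at h3
      exact h3
    obtain ⟨F, hF⟩ : ∃ F : Finset (Fin k), F = (univ \ I) \ N := ⟨_, rfl⟩
    have hFI : Disjoint F (I \ R) := by
      rw [hF, disjoint_left]
      intro i hi hi'
      exact (mem_sdiff.1 (mem_sdiff.1 hi).1).2 (mem_sdiff.1 hi').1
    have hFc : k - I.card ≤ F.card + m := by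
      have h1 := le_card_sdiff N (univ \ I)
      rw [card_sdiff_of_subset (subset_univ I), card_univ, Fintype.card_fin, ← hF] at h1
      omega
    have h1 := hcore k a₀ u hinj hk F (I \ R) hFI hclean (τ' / 2)
      (Real.exp (ε / 2 * Real.log 2 * k)) (by positivity) (fun i hi => by
        rw [hF, mem_sdiff, mem_sdiff] at hi
        by_contra h
        exact hi.2 (by rw [hNd]; exact mem_filter.2 ⟨mem_univ _, hI i hi.1.2, h⟩)) (by
        have h2 := hfew k
        have h3 : 2 * (τ' / 2) * (k : ℝ) = τ' * k := by ring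
        rw [h3]
        exact h2)
    -- comparison
    have e1 : Real.exp (ε / 2 * Real.log 2 * k) = (2 : ℝ) ^ (ε / 2 * k) := by
      rw [Real.rpow_def_of_pos (by norm_num)]
      congr 1
      ring
    rw [e1] at h1
    have e2 : (3 : ℝ) ^ (k - I.card) ≤ 3 ^ F.card * 3 ^ m := by
      rw [← pow_add]
      exact pow_le_pow_right₀ (by norm_num) hFc
    have e3 : (4 : ℝ) ^ I.card ≤
        (4 : ℝ) ^ ((1 - ε / 8) * (I \ R).card) * (4 ^ K * (2 : ℝ) ^ (ε / 2 * k)) := by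
      have g1 : (2 : ℝ) ^ (ε / 2 * k) = (4 : ℝ) ^ (ε / 4 * k) := by
        rw [show (4 : ℝ) = 2 ^ (2 : ℝ) by norm_num, ← Real.rpow_mul (by norm_num)]
        congr 1
        ring
      rw [g1, ← Real.rpow_natCast (4 : ℝ) I.card, ← Real.rpow_natCast (4 : ℝ) K,
        ← Real.rpow_add (by norm_num), ← Real.rpow_add (by norm_num)]
      refine Real.rpow_le_rpow_of_exponent_le (by norm_num) ?_
      have g2 : ((I \ R).card : ℝ) = I.card - R.card := by
        rw [card_sdiff_of_subset hRI, Nat.cast_sub (card_le_card hRI)]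
      have g3 : (0 : ℝ) ≤ R.card := Nat.cast_nonneg _
      rw [g2]
      have g4 : ε / 8 * (I.card : ℝ) ≤ ε / 8 * k := by gcongr
      have g5 : 0 ≤ ε / 8 * (R.card : ℝ) := by positivity
      nlinarith
    have e4 : (2 : ℝ) ^ (-(ε * k)) * ((2 : ℝ) ^ (ε / 2 * k) * (2 : ℝ) ^ (ε / 2 * k)) = 1 := by
      rw [← Real.rpow_add (by norm_num), ← Real.rpow_add (by norm_num)]
      rw [show -(ε * k) + (ε / 2 * k + ε / 2 * k) = (0 : ℝ) by ring, Real.rpow_zero]
    obtain ⟨q, hq⟩ : ∃ q : ℝ, q = (2 : ℝ) ^ (ε / 2 * k) := ⟨_, rfl⟩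
    have hq0 : 0 < q := by rw [hq]; positivity
    rw [← hq] at h1 e3 e4
    obtain ⟨y, hy⟩ : ∃ y : ℝ, y = (4 : ℝ) ^ ((1 - ε / 8) * (I \ R).card) := ⟨_, rfl⟩
    have hy0 : 0 < y := by rw [hy]; positivity
    rw [← hy] at h1 e3
    have e5 : c₁ * (3 ^ (k - I.card) * 4 ^ I.card * (2 : ℝ) ^ (-(ε * k))) ≤
        (3 ^ m * 4 ^ K) * (prods a₀ u).card := by
      have hr0 : (0 : ℝ) < (2 : ℝ) ^ (-(ε * k)) := by positivity
      calc c₁ * ((3 : ℝ) ^ (k - I.card) * 4 ^ I.card * (2 : ℝ) ^ (-(ε * k))) ≤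
          c₁ * ((3 ^ F.card * 3 ^ m) * (y * (4 ^ K * q)) * (2 : ℝ) ^ (-(ε * k))) := by
            gcongr
        _ = (3 ^ m * 4 ^ K) * (c₁ * (3 ^ F.card * y)) * (q * (2 : ℝ) ^ (-(ε * k))) := by ring
        _ ≤ (3 ^ m * 4 ^ K) * ((prods a₀ u).card * q) * (q * (2 : ℝ) ^ (-(ε * k))) := by
            gcongr
        _ = (3 ^ m * 4 ^ K) * (prods a₀ u).card * ((2 : ℝ) ^ (-(ε * k)) * (q * q)) := by ring
        _ = (3 ^ m * 4 ^ K) * (prods a₀ u).card := by rw [e4, mul_one]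
    rw [div_mul_eq_mul_div, div_le_iff₀ hC0]
    have e6 : min c₁ 1 * ((3 : ℝ) ^ (k - I.card) * 4 ^ I.card * (2 : ℝ) ^ (-(ε * k))) ≤
        c₁ * (3 ^ (k - I.card) * 4 ^ I.card * (2 : ℝ) ^ (-(ε * k))) :=
      mul_le_mul_of_nonneg_right (min_le_left _ _) (by positivity)
    refine e6.trans (e5.trans ?_)
    rw [hC]
    have e7 : (0 : ℝ) ≤ (3 ^ m * 4 ^ K) * (prods a₀ u).card := by positivity
    nlinarith

lemma Exposed.anti {k : ℕ} {a₀ : ℤ} {u : Fin k → ℤ} {M M' : ℕ} {i : Fin k}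
    (h : Exposed a₀ u M' i) (hM : M ≤ M') : Exposed a₀ u M i := by
  obtain ⟨p, e, hp, h1, h2, h3⟩ := h
  refine ⟨p, e, hp, h1, h2, ?_⟩
  rcases h3 with ⟨h3, h4⟩ | h3
  · exact Or.inl ⟨h3, hM.trans h4⟩
  · exact Or.inr h3

end Pool.Agent.Helper37MX
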